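import Pool.Agent.Q204.WD.Comp
import Pool.Agent.Helper446.Comp

/-!
Tools: bounded search, and monotone machines built from a sound and complete search.
-/

set_option autoImplicit false

namespace Pool.Agent.Q205.PKL

open Q204.WD Encodable Pool.Agent.Helper446.RE

section search

/-- bounded universal quantifier -/
def allB (f : ℕ → Bool) : ℕ → Bool
  | 0 => true
  | n + 1 => allB f n && f n

theorem allB_iff {f : ℕ → Bool} {n : ℕ} : allB f n = true ↔ ∀ i < n, f i = true := by
  induction n with
  | zero => simp [allB]
  | succ n ih =>
    rw [allB, Bool.and_eq_true, ih]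
    constructor
    · rintro ⟨h1, h2⟩ i hi
      rcases Nat.lt_succ_iff_lt_or_eq.1 hi with h | rfl
      exacts [h1 i h, h2]
    · exact fun h => ⟨fun i hi => h i (by omega), h n (by omega)⟩

/-- the least `c < n` with `f c`, or `n` -/
def findN (f : ℕ → Bool) : ℕ → ℕ
  | 0 => 0
  | n + 1 => bif decide (findN f n < n) then findN f n else bif f n then n else n + 1

theorem findN_le (f : ℕ → Bool) (n : ℕ) : findN f n ≤ n := by
  induction n with
  | zero => exact le_rfl
  | succ n ih =>
    rw [findN]
    cases h : decide (findN f n < n) <;> cases h' : f n <;> simp <;> omega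

theorem findN_spec (f : ℕ → Bool) (n : ℕ) : (findN f n < n → f (findN f n) = true) ∧
    ∀ c < findN f n, f c = false := by
  induction n with
  | zero => exact ⟨fun h => absurd h (Nat.not_lt_zero _), fun c hc => absurd hc (Nat.not_lt_zero _)⟩
  | succ n ih =>
    rw [findN]
    have hle := findN_le f n
    cases h : decide (findN f n < n)
    · have h1 : ¬ findN f n < n := by simpa using h
      have h2 : findN f n = n := by omega
      rw [h2] at ih
      cases h' : f n
      · simp only [cond_false]
        refine ⟨fun h => absurd h (lt_irrefl _), fun c hc => ?_⟩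
        rcases Nat.lt_succ_iff_lt_or_eq.1 hc with h3 | rfl
        exacts [ih.2 c h3, h']
      · simp only [cond_false, cond_true]
        exact ⟨fun _ => h', ih.2⟩
    · have h1 : findN f n < n := by simpa using h
      simp only [cond_true]
      exact ⟨fun _ => ih.1 h1, ih.2⟩

theorem findN_lt {f : ℕ → Bool} {n c : ℕ} (hc : c < n) (h : f c = true) : findN f n < n := by
  by_contra hn
  have h1 := (findN_spec f n).2 c (by omega)
  rw [h] at h1
  exact Bool.noConfusion h1

theorem findN_congr {f g : ℕ → Bool} {n : ℕ} (h : ∀ i < n, f i = g i) : findN f n = findN g n := by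
  induction n with
  | zero => rfl
  | succ n ih =>
    rw [findN, findN, ih fun i hi => h i (by omega), h n (by omega)]

theorem findN_eq {f : ℕ → Bool} {n c : ℕ} (hc : c < n) (h : f c = true)
    (h' : ∀ i < c, f i = false) : findN f n = c := by
  have h1 := findN_spec f n
  have h2 := findN_lt hc h
  rcases lt_trichotomy (findN f n) c with h3 | h3 | h3
  · have := h' _ h3
    rw [h1.1 h2] at this
    exact absurd this (by simp)
  · exact h3
  · have := h1.2 c h3
    rw [h] at this
    exact absurd this (by simp)

end search

section comp

variable {α β : Type*} [Primcodable α] [Primcodable β]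

@[fun_prop] theorem c_allB {f : α → ℕ → Bool} {n : α → ℕ}
    (hf : Computable fun x : α × ℕ => f x.1 x.2) (hn : Computable n) :
    Computable fun a => allB (f a) (n a) := by
  have h1 : Computable fun a => Nat.rec (motive := fun _ => Bool) true
      (fun i b => b && f a i) (n a) := by
    refine Computable.nat_rec (h := fun a (y : ℕ × Bool) => y.2 && f a y.1) hn
      (Computable.const true) ?_
    show Computable fun x : α × (ℕ × Bool) => x.2.2 && f x.1 x.2.1
    exact cand (by fun_prop) (hf.comp (g := fun x : α × (ℕ × Bool) => (x.1, x.2.1)) (by fun_prop))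
  refine h1.of_eq fun a => ?_
  generalize n a = k
  induction k with
  | zero => rfl
  | succ k ih => simp only [ih, allB]

@[fun_prop] theorem c_lt {f g : α → ℕ} (hf : Computable f) (hg : Computable g) :
    Computable fun a => decide (f a < g a) :=
  (PrimrecPred.decide Primrec.nat_lt).to_comp.comp (hf.pair hg)

@[fun_prop] theorem c_le {f g : α → ℕ} (hf : Computable f) (hg : Computable g) :
    Computable fun a => decide (f a ≤ g a) :=
  (PrimrecPred.decide Primrec.nat_le).to_comp.comp (hf.pair hg)

@[fun_prop] theorem c_eq {f g : α → ℕ} (hf : Computable f) (hg : Computable g) :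
    Computable fun a => decide (f a = g a) :=
  (PrimrecPred.decide (Primrec.eq (α := ℕ))).to_comp.comp (hf.pair hg)

@[fun_prop] theorem c_findN {f : α → ℕ → Bool} {n : α → ℕ}
    (hf : Computable fun x : α × ℕ => f x.1 x.2) (hn : Computable n) :
    Computable fun a => findN (f a) (n a) := by
  have h1 : Computable fun a => Nat.rec (motive := fun _ => ℕ) 0
      (fun i b => bif decide (b < i) then b else bif f a i then i else i + 1) (n a) := by
    refine Computable.nat_rec (h := fun a (y : ℕ × ℕ) => bif decide (y.2 < y.1) then y.2 else
      bif f a y.1 then y.1 else y.1 + 1) hn (Computable.const 0) ?_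
    show Computable fun x : α × (ℕ × ℕ) => bif decide (x.2.2 < x.2.1) then x.2.2 else
      bif f x.1 x.2.1 then x.2.1 else x.2.1 + 1
    have h2 : Computable fun x : α × (ℕ × ℕ) => f x.1 x.2.1 :=
      hf.comp (g := fun x : α × (ℕ × ℕ) => (x.1, x.2.1)) (by fun_prop)
    fun_prop
  refine h1.of_eq fun a => ?_
  generalize n a = k
  induction k with
  | zero => rfl
  | succ k ih => simp only [ih, findN]

@[fun_prop] theorem c_take {f : α → List β} {n : α → ℕ} (hf : Computable f) (hn : Computable n) :
    Computable fun a => (f a).take (n a) := Primrec.list_take.to_comp.comp hn hf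

@[fun_prop] theorem c_getD {f : α → List β} {n : α → ℕ} (d : β) (hf : Computable f)
    (hn : Computable n) : Computable fun a => (f a).getD (n a) d :=
  (Primrec.list_getD d).to_comp.comp hf hn

@[fun_prop] theorem c_node {f : α → ℕ} (hf : Computable f) :
    Computable fun a => Denumerable.ofNat (List ℕ) (f a) := (Computable.ofNat _).comp hf

@[fun_prop] theorem c_prefix {f g : α → List ℕ} (hf : Computable f) (hg : Computable g) :
    Computable fun a => decide (f a <+: g a) := by
  have h : Computable fun a => decide ((g a).take (f a).length = f a) :=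
    (PrimrecPred.decide (Primrec.eq (α := List ℕ))).to_comp.comp
      ((c_take hg (clength hf)).pair hf)
  refine h.of_eq fun a => ?_
  rw [decide_eq_decide, List.prefix_iff_eq_take]
  exact eq_comm

@[fun_prop] theorem c_replicate {f : α → ℕ} (b : ℕ) (hf : Computable f) :
    Computable fun a => List.replicate (f a) b := by
  have h : Primrec fun n : ℕ => (List.range n).map fun _ => b :=
    Primrec.list_map Primrec.list_range (Primrec.const b).to₂
  refine (h.to_comp.comp hf).of_eq fun a => ?_
  apply List.ext_getElem <;> simp

@[fun_prop] theorem c_mapr {f : α → ℕ → ℕ} {n : α → ℕ}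
    (hf : Computable fun x : α × ℕ => f x.1 x.2) (hn : Computable n) :
    Computable fun a => (List.range (n a)).map (f a) := by
  have h1 : Computable fun a => Nat.rec (motive := fun _ => List ℕ) []
      (fun i l => l ++ [f a i]) (n a) := by
    refine Computable.nat_rec (h := fun a (y : ℕ × List ℕ) => y.2 ++ [f a y.1]) hn
      (Computable.const []) ?_
    show Computable fun x : α × (ℕ × List ℕ) => x.2.2 ++ [f x.1 x.2.1]
    have h2 : Computable fun x : α × (ℕ × List ℕ) => f x.1 x.2.1 :=
      hf.comp (g := fun x : α × (ℕ × List ℕ) => (x.1, x.2.1)) (by fun_prop)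
    exact cappend (by fun_prop) (ccons h2 (by fun_prop))
  refine h1.of_eq fun a => ?_
  generalize n a = k
  induction k with
  | zero => rfl
  | succ k ih => rw [List.range_succ, List.map_append, ← ih]; rfl

@[fun_prop] theorem c_evens {f : α → List ℕ} (hf : Computable f) :
    Computable fun a => evens (f a) := primrec_evens.to_comp.comp hf

@[fun_prop] theorem c_odds {f : α → List ℕ} (hf : Computable f) :
    Computable fun a => odds (f a) := primrec_odds.to_comp.comp hf

end comp

section machine

/-- the value at `i` of the functional given by the search `g` -/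
def runG (g : List ℕ → ℕ → Option ℕ) (w : List ℕ) (i : ℕ) : Option ℕ :=
  g (w.take (findN (fun j => (g (w.take j) i).isSome) w.length)) i

theorem runG_mono {g : List ℕ → ℕ → Option ℕ} {w w' : List ℕ} (h : w <+: w') {i v : ℕ}
    (hv : runG g w i = some v) : runG g w' i = some v := by
  have hle := h.length_le
  have htake : ∀ j ≤ w.length, w'.take j = w.take j := by
    intro j hj
    obtain ⟨t, rfl⟩ := h
    rw [List.take_append_of_le_length hj]
  have hN := findN_le (fun j => (g (w.take j) i).isSome) w.length
  have h1 := findN_spec (fun j => (g (w.take j) i).isSome) w.length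
  set j0 := findN (fun j => (g (w.take j) i).isSome) w.length with hj0
  have hv' : g (w.take j0) i = some v := hv
  have key : w'.take (findN (fun j => (g (w'.take j) i).isSome) w'.length) = w.take j0 := by
    rcases eq_or_lt_of_le (hN.trans hle) with h2 | h2
    · -- then `w = w'`
      have h3 : w.length = w'.length := by omega
      have h4 : w = w' := h.eq_of_length h3
      rw [hj0, h4]
    · have h5 : findN (fun j => (g (w'.take j) i).isSome) w'.length = j0 := by
        refine findN_eq h2 ?_ ?_
        · rw [htake j0 hN, hv']
          rfl
        · intro j hj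
          rw [htake j (by omega)]
          exact h1.2 j hj
      rw [h5, htake j0 hN]
  rw [runG, key, hv']

/-- the monotone machine given by the search `g` -/
def mach (g : List ℕ → ℕ → Option ℕ) (w : List ℕ) : List ℕ :=
  (List.range (findN (fun i => !(runG g w i).isSome) w.length)).map fun i => (runG g w i).getD 0

theorem mono_mach (g : List ℕ → ℕ → Option ℕ) : Mono (mach g) := by
  intro w w' h
  have hle := h.length_le
  have h1 := findN_spec (fun i => !(runG g w i).isSome) w.length
  have h2 := findN_spec (fun i => !(runG g w' i).isSome) w'.length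
  have hN := findN_le (fun i => !(runG g w i).isSome) w.length
  have key : ∀ i < findN (fun i => !(runG g w i).isSome) w.length,
      ∃ v, runG g w i = some v ∧ runG g w' i = some v := by
    intro i hi
    have h3 : (runG g w i).isSome = true := by simpa using h1.2 i hi
    obtain ⟨v, hv⟩ := Option.isSome_iff_exists.1 h3
    exact ⟨v, hv, runG_mono h hv⟩
  refine map_range_prefix ?_ ?_
  · by_contra hlt
    push Not at hlt
    have h4 : findN (fun i => !(runG g w' i).isSome) w'.length < w'.length := by omega
    have h5 := h2.1 h4
    obtain ⟨v, -, hv⟩ := key _ hlt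
    rw [hv] at h5
    simp at h5
  · intro i hi
    obtain ⟨v, hv, hv'⟩ := key i hi
    rw [hv, hv']

theorem comp_mach {g : List ℕ → ℕ → Option ℕ}
    (hg : Computable fun x : List ℕ × ℕ => g x.1 x.2) : Computable (mach g) := by
  have h1 : Computable fun x : (List ℕ × ℕ) × ℕ => (g (x.1.1.take x.2) x.1.2).isSome :=
    cisSome (hg.comp (g := fun x : (List ℕ × ℕ) × ℕ => (x.1.1.take x.2, x.1.2)) (by fun_prop))
  have h2 : Computable fun x : List ℕ × ℕ => runG g x.1 x.2 := by
    unfold runG
    exact hg.comp (g := fun x : List ℕ × ℕ => (x.1.take (findN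
      (fun j => (g (x.1.take j) x.2).isSome) x.1.length), x.2)) (by fun_prop)
  have h3 : Computable fun x : List ℕ × ℕ => (runG g x.1 x.2).getD 0 :=
    (Primrec.option_getD.to_comp).comp h2 (Computable.const 0)
  unfold mach
  fun_prop

theorem conv_mach {g : List ℕ → ℕ → Option ℕ} {x y : ℕ → ℕ}
    (h1 : ∀ i, ∃ N, (g (pre x N) i).isSome = true)
    (h2 : ∀ i N v, g (pre x N) i = some v → v = y i) : Conv (fun n => mach g (pre x n)) y := by
  have hrun : ∀ i n v, runG g (pre x n) i = some v → v = y i := by
    intro i n v hv
    unfold runG at hv
    rw [prefix_eq_pre (List.take_prefix _ (pre x n))] at hv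
    exact h2 i _ v hv
  have hdef : ∀ i, ∃ N, ∀ n, N < n → (runG g (pre x n) i).isSome = true := by
    intro i
    obtain ⟨N, hN⟩ := h1 i
    refine ⟨N, fun n hn => ?_⟩
    have h3 : ∀ j ≤ n, (pre x n).take j = pre x j := by
      intro j hj
      rw [prefix_eq_pre (List.take_prefix j (pre x n))]
      simp [hj]
    have h4 : findN (fun j => (g ((pre x n).take j) i).isSome) (pre x n).length <
        (pre x n).length := by
      refine findN_lt (c := N) (by simpa using hn) ?_
      rw [h3 N hn.le]
      exact hN
    exact (findN_spec _ _).1 h4
  constructor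
  · intro n
    show mach g (pre x n) = pre y (mach g (pre x n)).length
    have h5 : (mach g (pre x n)).length =
        findN (fun i => !(runG g (pre x n) i).isSome) (pre x n).length := by
      simp [mach]
    rw [h5]
    apply List.map_congr_left
    intro i hi
    rw [List.mem_range] at hi
    have h6 := (findN_spec (fun i => !(runG g (pre x n) i).isSome) (pre x n).length).2 i hi
    have h7 : (runG g (pre x n) i).isSome = true := by simpa using h6
    obtain ⟨v, hv⟩ := Option.isSome_iff_exists.1 h7
    rw [hv]
    exact hrun i n v hv
  · intro m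
    choose N hN using hdef
    obtain ⟨B, hB⟩ : ∃ B, ∀ i < m, N i < B := by
      obtain ⟨B, hB⟩ := ((Finset.range m).image N).exists_le
      exact ⟨B + 1, fun i hi => Nat.lt_succ_of_le
        (hB _ (Finset.mem_image_of_mem _ (Finset.mem_range.2 hi)))⟩
    refine ⟨max B m, fun n hn => ?_⟩
    have h5 : (mach g (pre x n)).length =
        findN (fun i => !(runG g (pre x n) i).isSome) (pre x n).length := by
      simp [mach]
    rw [h5]
    by_contra hlt
    push Not at hlt
    have h6 := findN_spec (fun i => !(runG g (pre x n) i).isSome) (pre x n).length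
    have h7 := h6.1 (by
      refine lt_of_lt_of_le hlt ?_
      simpa using (le_max_right B m).trans hn)
    have h8 := hN _ n (lt_of_lt_of_le (hB _ hlt) ((le_max_left B m).trans hn))
    rw [h8] at h7
    simp at h7

end machine

end Pool.Agent.Q205.PKL
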