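import Pool.Agent.Q205.PKL.Tree
import Pool.Agent.Q205.PKL.Tools

/-!
Asking questions to the perfect kernel problem: a computable relation `R` on finite sequences gives a
tree in whose perfect kernel one reads off for which `e` there is `y` with `R e (p|m) (y|m)` for
all `m`.
-/

set_option autoImplicit false

namespace Pool.Agent.Q205.PKL

open Q204.WD Encodable

/-- first components -/
def um (v : List ℕ) : List ℕ := v.map fun n => n.unpair.1

theorem um_pre (x : ℕ → ℕ) (n : ℕ) : um (pre x n) = pre (fun i => (x i).unpair.1) n := by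
  simp [um, pre]

theorem pre_take (x : ℕ → ℕ) {m n : ℕ} (h : m ≤ n) : (pre x n).take m = pre x m := by
  rw [prefix_eq_pre (List.take_prefix m (pre x n))]
  simp [h]

variable (R : ℕ → List ℕ → List ℕ → Bool)

/-- the test for the tree -/
def inW (a l : List ℕ) : Bool :=
  decide (l.length = 0) || allB (fun m => R (l.getD 0 0) (a.take m) (um (l.tail.take m))) l.length

/-- the tree -/
def WT (p : ℕ → ℕ) : Set (List ℕ) :=
  {l | l = [] ∨ ∀ m < l.length, R (l.getD 0 0) (pre p m) (um (l.tail.take m)) = true}

theorem inW_iff (p : ℕ → ℕ) {l : List ℕ} {N : ℕ} (h : l.length ≤ N) :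
    inW R (pre p N) l = true ↔ l ∈ WT R p := by
  rw [inW, Bool.or_eq_true, decide_eq_true_iff, List.length_eq_zero_iff, allB_iff]
  refine or_congr Iff.rfl (forall₂_congr fun m hm => ?_)
  rw [pre_take p (by omega : m ≤ N)]

theorem tree_WT (p : ℕ → ℕ) : IsTree (WT R p) := by
  intro σ τ h hτ
  cases σ with
  | nil => exact Or.inl rfl
  | cons e v =>
    obtain ⟨t, rfl⟩ := h
    refine Or.inr fun m hm => ?_
    rcases hτ with hτ | hτ
    · simp at hτ
    · have := hτ m (by simp at hm ⊢; omega)
      simp only [List.length_cons] at hm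
      simpa [List.take_append_of_le_length (Nat.lt_succ_iff.1 hm)] using this

theorem ask (p : ℕ → ℕ) (e : ℕ) :
    [e] ∈ kernel (WT R p) ↔ ∃ y : ℕ → ℕ, ∀ m, R e (pre p m) (pre y m) = true := by
  constructor
  · intro h
    obtain ⟨x, hx⟩ := exists_path (kernel_tree _) (kernel_perfect _) h
    refine ⟨fun i => (x i).unpair.1, fun m => ?_⟩
    rcases kernel_sub _ (hx m) with h1 | h1
    · simp at h1
    · have := h1 m (by simp)
      simpa [um_pre, pre_take x le_rfl] using this
  · rintro ⟨y, hy⟩
    refine ⟨{l | l = [] ∨ ∃ v, l = e :: v ∧ um v = pre y v.length}, ?_, ?_, ?_, Or.inr ⟨[], rfl, rfl⟩⟩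
    · intro σ τ h hτ
      cases σ with
      | nil => exact Or.inl rfl
      | cons e' v =>
        rcases hτ with rfl | ⟨w, rfl, hw⟩
        · simp at h
        · obtain ⟨rfl, hvw⟩ := List.cons_prefix_cons.1 h
          refine Or.inr ⟨v, rfl, ?_⟩
          obtain ⟨t, rfl⟩ := hvw
          have h1 : um v = (um (v ++ t)).take v.length := by
            simp [um]
          rw [h1, hw, pre_take y (by simp)]
    · have key : ∀ v : List ℕ, um v = pre y v.length → ∀ b,
          um (v ++ [Nat.pair (y v.length) b]) = pre y (v ++ [Nat.pair (y v.length) b]).length := by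
        intro v hv b
        rw [List.length_append, List.length_singleton, pre_succ, ← hv]
        simp [um]
      have key2 : ∀ v : List ℕ, ∀ b b', b ≠ b' → ¬ (e :: (v ++ [Nat.pair (y v.length) b]) <+:
          e :: (v ++ [Nat.pair (y v.length) b'])) := by
        intro v b b' hb h
        have h1 := h.eq_of_length (by simp)
        simp [Nat.pair_eq_pair] at h1
        exact hb h1
      intro σ hσ
      have : ∃ v, um v = pre y v.length ∧ σ <+: e :: v := by
        rcases hσ with rfl | ⟨v, rfl, hv⟩
        · exact ⟨[], rfl, List.nil_prefix⟩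
        · exact ⟨v, hv, List.prefix_refl _⟩
      obtain ⟨v, hv, hσv⟩ := this
      have h2 : ∀ b, σ <+: e :: (v ++ [Nat.pair (y v.length) b]) := fun b =>
        hσv.trans ⟨[Nat.pair (y v.length) b], by simp⟩
      exact ⟨_, Or.inr ⟨_, rfl, key v hv 0⟩, _, Or.inr ⟨_, rfl, key v hv 1⟩, h2 0, h2 1,
        key2 v 0 1 (by simp), key2 v 1 0 (by simp)⟩
    · rintro l (rfl | ⟨v, rfl, hv⟩)
      · exact Or.inl rfl
      · refine Or.inr fun m hm => ?_
        simp only [List.length_cons] at hm
        have h1 : um (v.take m) = pre y m := by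
          have h2 : um (v.take m) = (um v).take m := by simp [um]
          rw [h2, hv, pre_take y (by omega)]
        simp [h1, hy m]

/-- the search which gives the characteristic function of the tree -/
def gW (a : List ℕ) (i : ℕ) : Option ℕ :=
  bif decide (a.length < (Denumerable.ofNat (List ℕ) i).length) then none else
    some (bif inW R a (Denumerable.ofNat (List ℕ) i) then 1 else 0)

open Classical in
/-- the characteristic function of the tree -/
noncomputable def charW (p : ℕ → ℕ) (i : ℕ) : ℕ :=
  if Denumerable.ofNat (List ℕ) i ∈ WT R p then 1 else 0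

theorem names_charW (p : ℕ → ℕ) : Names (charW R p) (WT R p) := by
  classical
  refine ⟨tree_WT R p, fun σ => ?_⟩
  by_cases h : σ ∈ WT R p
  · refine Or.inl ⟨h, ?_⟩
    rw [charW, Denumerable.ofNat_encode, if_pos h]
  · refine Or.inr ⟨h, ?_⟩
    rw [charW, Denumerable.ofNat_encode, if_neg h]

theorem conv_gW (p : ℕ → ℕ) : Conv (fun n => mach (gW R) (pre p n)) (charW R p) := by
  classical
  refine conv_mach (fun i => ⟨(Denumerable.ofNat (List ℕ) i).length, ?_⟩) ?_
  · simp [gW]
  · intro i N v hv
    unfold gW at hv
    by_cases h : (pre p N).length < (Denumerable.ofNat (List ℕ) i).length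
    · rw [decide_eq_true h, cond_true] at hv
      exact absurd hv (by simp)
    · simp only [h, decide_false, cond_false, Option.some.injEq] at hv
      rw [← hv, charW]
      have h1 := inW_iff R p (l := Denumerable.ofNat (List ℕ) i) (N := N) (by
        simpa using h)
      by_cases h2 : Denumerable.ofNat (List ℕ) i ∈ WT R p
      · rw [h1.2 h2, if_pos h2, cond_true]
      · have h3 : inW R (pre p N) (Denumerable.ofNat (List ℕ) i) = false := by
          rw [← Bool.not_eq_true, h1]
          exact h2
        rw [h3, if_neg h2, cond_false]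

open Pool.Agent.Helper446.RE in
theorem comp_gW (hR : Computable fun x : ℕ × List ℕ × List ℕ => R x.1 x.2.1 x.2.2) :
    Computable (mach (gW R)) := by
  apply comp_mach
  have hum : Computable um :=
    (Primrec.list_map Primrec.id ((Primrec.fst.comp (Primrec.unpair.comp Primrec.snd)).to₂)).to_comp
  have htail : Computable (List.tail : List ℕ → List ℕ) := Primrec.list_tail.to_comp
  have h1 : Computable fun x : (List ℕ × ℕ) × ℕ =>
      um ((Denumerable.ofNat (List ℕ) x.1.2).tail.take x.2) :=
    hum.comp (c_take (htail.comp (by fun_prop)) (by fun_prop))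
  have h2 : Computable fun x : (List ℕ × ℕ) × ℕ => R ((Denumerable.ofNat (List ℕ) x.1.2).getD 0 0)
      (x.1.1.take x.2) (um ((Denumerable.ofNat (List ℕ) x.1.2).tail.take x.2)) :=
    hR.comp (g := fun x : (List ℕ × ℕ) × ℕ => ((Denumerable.ofNat (List ℕ) x.1.2).getD 0 0,
      (x.1.1.take x.2), (um ((Denumerable.ofNat (List ℕ) x.1.2).tail.take x.2))))
      (by fun_prop)
  unfold gW inW
  fun_prop

end Pool.Agent.Q205.PKL
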