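import Pool.Agent.Q205.PKL.Ask

/-!
The relation used for the questions: no finite sequence extends `s`, makes the event true and has new
nonzero entries only at indices of nodes outside the perfect kernel.
-/

set_option autoImplicit false

namespace Pool.Agent.Q205.PKL

open Q204.WD Encodable

/-- the node with a given index -/
abbrev nd (i : ℕ) : List ℕ := Denumerable.ofNat (List ℕ) i

variable (ev : ℕ → List ℕ → List ℕ → List ℕ → Bool) (φ : List ℕ → List ℕ)

/-- check of the part of the witness which refutes the candidate `c` -/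
def chkC (t : ℕ) (s a v : List ℕ) (c : ℕ) : Bool :=
  !(decide (s <+: nd c.unpair.2) && ev t s (a.take c.unpair.1) (nd c.unpair.2)) ||
  (decide (s.length ≤ v.getD (2 * c) 0) && decide (v.getD (2 * c) 0 < (nd c.unpair.2).length) &&
    !decide ((nd c.unpair.2).getD (v.getD (2 * c) 0) 0 = 0) &&
    !decide (v.getD (2 * v.getD (2 * c) 0 + 1) 1 = 0))

/-- check of the part of the witness which codes a perfect subtree -/
def chkJ (a v : List ℕ) (j : ℕ) : Bool :=
  decide (v.getD (2 * j + 1) 0 = 0) ||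
  (decide (nd j <+: nd (v.getD (2 * j + 1) 0 - 1).unpair.1) &&
    decide (nd j <+: nd (v.getD (2 * j + 1) 0 - 1).unpair.2) &&
    !decide (nd (v.getD (2 * j + 1) 0 - 1).unpair.1 <+: nd (v.getD (2 * j + 1) 0 - 1).unpair.2) &&
    !decide (nd (v.getD (2 * j + 1) 0 - 1).unpair.2 <+: nd (v.getD (2 * j + 1) 0 - 1).unpair.1) &&
    !decide (v.getD (2 * (v.getD (2 * j + 1) 0 - 1).unpair.1 + 1) 1 = 0) &&
    !decide (v.getD (2 * (v.getD (2 * j + 1) 0 - 1).unpair.2 + 1) 1 = 0) &&
    decide ((φ a).getD j 1 = 1))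

/-- the relation -/
def RR (e : ℕ) (a v : List ℕ) : Bool :=
  allB (fun k => bif decide (k % 2 = 0) then chkC ev e.unpair.1 (nd e.unpair.2) a v (k / 2)
    else chkJ φ a v (k / 2)) v.length

/-- The question: some finite sequence extends `s`, makes the event true, and has new nonzero
entries only in `U`. -/
def X (U : Set ℕ) (p : ℕ → ℕ) (t : ℕ) (s : List ℕ) : Prop :=
  ∃ n s', s <+: s' ∧ ev t s (pre p n) s' = true ∧
    ∀ i, s.length ≤ i → i < s'.length → s'.getD i 0 ≠ 0 → i ∈ U

/-- the indices of the nodes outside the perfect kernel -/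
def UU (T : Set (List ℕ)) : Set ℕ := {i | nd i ∉ kernel T}

theorem getD_pre1 (y : ℕ → ℕ) (m i d : ℕ) :
    (pre y m).getD i d = if i < m then y i else d := by
  split_ifs with h
  · rw [List.getD_eq_getElem _ _ (by simpa using h)]
    exact pre_getElem y m i _
  · rw [List.getD_eq_default _ _ (by simpa using h)]

variable {ev φ}

theorem RR_iff {T : Set (List ℕ)} {p u : ℕ → ℕ} (hu : Names u T)
    (hφ : Conv (fun n => φ (pre p n)) u) (t : ℕ) (s : List ℕ) :
    (∃ y : ℕ → ℕ, ∀ m, RR ev φ (Nat.pair t (encode s)) (pre p m) (pre y m) = true) ↔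
      ¬ X ev (UU T) p t s := by
  classical
  constructor
  · rintro ⟨y, hy⟩ ⟨n, s', hs, he, hU⟩
    have hy' : ∀ m k, k < m → (bif decide (k % 2 = 0) then
        chkC ev t s (pre p m) (pre y m) (k / 2) else
        chkJ φ (pre p m) (pre y m) (k / 2)) = true := by
      intro m k hk
      have h1 := allB_iff.1 (hy m) k (by simpa using hk)
      simpa using h1
    -- the coded perfect subtree
    have F2 : ∀ j, y (2 * j + 1) ≠ 0 → nd j <+: nd (y (2 * j + 1) - 1).unpair.1 ∧
        nd j <+: nd (y (2 * j + 1) - 1).unpair.2 ∧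
        ¬ nd (y (2 * j + 1) - 1).unpair.1 <+: nd (y (2 * j + 1) - 1).unpair.2 ∧
        ¬ nd (y (2 * j + 1) - 1).unpair.2 <+: nd (y (2 * j + 1) - 1).unpair.1 ∧
        y (2 * (y (2 * j + 1) - 1).unpair.1 + 1) ≠ 0 ∧
        y (2 * (y (2 * j + 1) - 1).unpair.2 + 1) ≠ 0 ∧ nd j ∈ T := by
      intro j hj
      set x1 := (y (2 * j + 1) - 1).unpair.1 with hx1
      set x2 := (y (2 * j + 1) - 1).unpair.2 with hx2
      obtain ⟨N, hN⟩ := hφ.2 (j + 1)
      obtain ⟨m, hm1, hm2, hm3, hm4⟩ : ∃ m, 2 * j + 1 < m ∧ 2 * x1 + 1 < m ∧ 2 * x2 + 1 < m ∧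
          N ≤ m := ⟨2 * j + 2 * x1 + 2 * x2 + 4 + N, by omega, by omega, by omega, by omega⟩
      have h1 := hy' m (2 * j + 1) hm1
      have h2 : (2 * j + 1) / 2 = j := by omega
      have h3 : ¬ (2 * j + 1) % 2 = 0 := by omega
      rw [decide_eq_false h3, cond_false, h2] at h1
      unfold chkJ at h1
      rw [getD_pre1 y m (2 * j + 1) 0, if_pos hm1, ← hx1, ← hx2, getD_pre1, if_pos hm2, getD_pre1,
        if_pos hm3] at h1
      simp only [Bool.or_eq_true, Bool.and_eq_true, decide_eq_true_eq, Bool.not_eq_true',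
        decide_eq_false_iff_not] at h1
      rcases h1 with h1 | h1
      · exact absurd h1 hj
      · obtain ⟨⟨⟨⟨⟨⟨g1, g2⟩, g3⟩, g4⟩, g5⟩, g6⟩, g7⟩ := h1
        refine ⟨g1, g2, g3, g4, g5, g6, ?_⟩
        have e1 : φ (pre p m) = pre u (φ (pre p m)).length := hφ.1 m
        have e2 : j + 1 ≤ (φ (pre p m)).length := hN m hm4
        rw [e1, getD_pre1, if_pos (by omega)] at g7
        rcases hu.2 (nd j) with g8 | g8
        · exact g8.1
        · have e3 := g8.2
          rw [Denumerable.encode_ofNat, g7] at e3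
          exact absurd e3 one_ne_zero
    have hker : ∀ i, y (2 * i + 1) ≠ 0 → nd i ∈ kernel T := by
      intro i hi
      refine ⟨{σ | ∃ j, y (2 * j + 1) ≠ 0 ∧ σ <+: nd j}, ?_, ?_, ?_, ⟨i, hi, List.prefix_refl _⟩⟩
      · rintro σ τ h ⟨j, hj, hτ⟩
        exact ⟨j, hj, h.trans hτ⟩
      · rintro σ ⟨j, hj, hσ⟩
        obtain ⟨g1, g2, g3, g4, g5, g6, -⟩ := F2 j hj
        exact ⟨_, ⟨_, g5, List.prefix_refl _⟩, _, ⟨_, g6, List.prefix_refl _⟩, hσ.trans g1,
          hσ.trans g2, g3, g4⟩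
      · rintro σ ⟨j, hj, hσ⟩
        exact hu.1 _ _ hσ (F2 j hj).2.2.2.2.2.2
    -- the refutation of the candidate
    set c := Nat.pair n (encode s') with hc
    have hc1 : c.unpair.1 = n := by rw [hc, Nat.unpair_pair]
    have hc2 : nd c.unpair.2 = s' := by rw [hc, Nat.unpair_pair]; exact Denumerable.ofNat_encode _
    obtain ⟨m, hm1, hm2, hm3⟩ : ∃ m, 2 * c < m ∧ 2 * y (2 * c) + 1 < m ∧ n ≤ m :=
      ⟨2 * c + 2 * y (2 * c) + 2 + n, by omega, by omega, by omega⟩
    have h1 := hy' m (2 * c) hm1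
    have h2 : 2 * c / 2 = c := by omega
    have h3 : 2 * c % 2 = 0 := by omega
    rw [decide_eq_true h3, cond_true, h2] at h1
    unfold chkC at h1
    rw [getD_pre1 y m (2 * c) 0, if_pos hm1, getD_pre1, if_pos hm2, hc1, hc2,
      pre_take p hm3] at h1
    simp only [Bool.or_eq_true, Bool.and_eq_true, decide_eq_true_eq, Bool.not_eq_true',
      decide_eq_false_iff_not, Bool.and_eq_false_iff] at h1
    rcases h1 with (h1 | h1) | ⟨⟨⟨g1, g2⟩, g3⟩, g4⟩
    · exact h1 hs
    · rw [he] at h1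
      exact absurd h1 (by simp)
    · exact hU _ g1 g2 g3 (hker _ g4)
  · intro hX
    have h1 : ∀ c : ℕ, ∃ i, (s <+: nd c.unpair.2 ∧ ev t s (pre p c.unpair.1) (nd c.unpair.2) = true) →
        s.length ≤ i ∧ i < (nd c.unpair.2).length ∧ (nd c.unpair.2).getD i 0 ≠ 0 ∧
          nd i ∈ kernel T := by
      intro c
      by_contra hcon
      push Not at hcon
      refine hX ⟨c.unpair.1, nd c.unpair.2, (hcon 0).1.1, (hcon 0).1.2, fun i g1 g2 g3 g4 => ?_⟩
      exact (hcon i).2 g1 g2 g3 g4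
    choose ic hic using h1
    have h2 : ∀ j : ℕ, ∃ z : ℕ, z ≠ 0 ∧ (nd j ∈ kernel T → nd j <+: nd (z - 1).unpair.1 ∧
        nd j <+: nd (z - 1).unpair.2 ∧ ¬ nd (z - 1).unpair.1 <+: nd (z - 1).unpair.2 ∧
        ¬ nd (z - 1).unpair.2 <+: nd (z - 1).unpair.1 ∧ nd (z - 1).unpair.1 ∈ kernel T ∧
        nd (z - 1).unpair.2 ∈ kernel T) := by
      intro j
      by_cases hj : nd j ∈ kernel T
      · obtain ⟨τ, hτ, τ', hτ', g1, g2, g3, g4⟩ := kernel_perfect T _ hj
        refine ⟨1 + Nat.pair (encode τ) (encode τ'), by omega, fun _ => ?_⟩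
        have e1 : 1 + Nat.pair (encode τ) (encode τ') - 1 = Nat.pair (encode τ) (encode τ') := by
          omega
        rw [e1, Nat.unpair_pair]
        simp only [nd, Denumerable.ofNat_encode]
        exact ⟨g1, g2, g3, g4, hτ, hτ'⟩
      · exact ⟨1, one_ne_zero, fun h => absurd h hj⟩
    choose z hz0 hz using h2
    let zz : ℕ → ℕ := fun j => if nd j ∈ kernel T then z j else 0
    refine ⟨join ic zz, fun m => ?_⟩
    unfold RR
    rw [allB_iff]
    intro k hk
    rw [pre_length] at hk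
    simp only [Nat.unpair_pair, nd, Denumerable.ofNat_encode]
    have hpos : ∀ i, nd i ∈ kernel T → (pre (join ic zz) m).getD (2 * i + 1) 1 ≠ 0 := by
      intro i hi
      rw [getD_pre1]
      split_ifs
      · rw [join_odd]
        simp only [zz, if_pos hi]
        exact hz0 i
      · exact one_ne_zero
    by_cases hk2 : k % 2 = 0
    · obtain ⟨c, rfl⟩ : ∃ c, k = 2 * c := ⟨k / 2, by omega⟩
      have h4 : 2 * c / 2 = c := by omega
      rw [decide_eq_true hk2, cond_true, h4]
      unfold chkC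
      rw [getD_pre1 _ m (2 * c) 0, if_pos hk, join_even]
      have hcm : c.unpair.1 ≤ m := (Nat.unpair_left_le c).trans (by omega)
      rw [pre_take p hcm]
      simp only [Bool.or_eq_true, Bool.and_eq_true, decide_eq_true_eq, Bool.not_eq_true',
        decide_eq_false_iff_not, Bool.and_eq_false_iff]
      by_cases h5 : s <+: nd c.unpair.2 ∧ ev t s (pre p c.unpair.1) (nd c.unpair.2) = true
      · obtain ⟨g1, g2, g3, g4⟩ := hic c h5
        exact Or.inr ⟨⟨⟨g1, g2⟩, g3⟩, hpos _ g4⟩
      · left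
        by_cases h6 : s <+: nd c.unpair.2
        · right
          have := fun h => h5 ⟨h6, h⟩
          simpa using this
        · exact Or.inl h6
    · obtain ⟨j, rfl⟩ : ∃ j, k = 2 * j + 1 := ⟨k / 2, by omega⟩
      have h4 : (2 * j + 1) / 2 = j := by omega
      rw [decide_eq_false hk2, cond_false, h4]
      unfold chkJ
      rw [getD_pre1 _ m (2 * j + 1) 0, if_pos hk, join_odd]
      simp only [Bool.or_eq_true, Bool.and_eq_true, decide_eq_true_eq, Bool.not_eq_true',
        decide_eq_false_iff_not]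
      by_cases hj : nd j ∈ kernel T
      · right
        obtain ⟨g1, g2, g3, g4, g5, g6⟩ := hz j hj
        have e1 : zz j = z j := if_pos hj
        rw [e1]
        refine ⟨⟨⟨⟨⟨⟨g1, g2⟩, g3⟩, g4⟩, hpos _ g5⟩, hpos _ g6⟩, ?_⟩
        have e2 : φ (pre p m) = pre u (φ (pre p m)).length := hφ.1 m
        rw [e2, getD_pre1]
        split_ifs
        · rcases hu.2 (nd j) with g8 | g8
          · rw [← g8.2, Denumerable.encode_ofNat]
          · exact absurd (kernel_sub _ hj) g8.1
        · rfl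
      · left
        exact if_neg hj

end Pool.Agent.Q205.PKL
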