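import Pool.Agent.Q205.PKL.Dec

/-!
Computability of the machines.
-/

set_option autoImplicit false

namespace Pool.Agent.Q205.PKL

open Q204.WD Encodable Pool.Agent.Helper446.RE

section

variable {α β : Type*} [Primcodable α] [Primcodable β]

@[fun_prop] theorem c_half {f : α → ℕ} (hf : Computable f) : Computable fun a => f a / 2 :=
  Primrec.nat_div.to_comp.comp hf (Computable.const 2)

@[fun_prop] theorem c_mod2 {f : α → ℕ} (hf : Computable f) : Computable fun a => f a % 2 :=
  Primrec.nat_mod.to_comp.comp hf (Computable.const 2)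

@[fun_prop] theorem c_nd {f : α → ℕ} (hf : Computable f) : Computable fun a => nd (f a) :=
  c_node hf

theorem c_gd0 {f : α → List ℕ} {n : α → ℕ} (hf : Computable f) (hn : Computable n) :
    Computable fun a => (f a).getD (n a) 0 := c_getD 0 hf hn

theorem c_gd1 {f : α → List ℕ} {n : α → ℕ} (hf : Computable f) (hn : Computable n) :
    Computable fun a => (f a).getD (n a) 1 := c_getD 1 hf hn

theorem c_eq0 {f : α → ℕ} (hf : Computable f) : Computable fun a => decide (f a = 0) :=
  c_eq hf (Computable.const 0)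

theorem c_eq1 {f : α → ℕ} (hf : Computable f) : Computable fun a => decide (f a = 1) :=
  c_eq hf (Computable.const 1)

@[fun_prop] theorem c_optGetD {f : α → Option (List ℕ)} (hf : Computable f) :
    Computable fun a => (f a).getD [] :=
  (Primrec.option_getD.to_comp).comp hf (Computable.const [])

@[fun_prop] theorem c_joinL {f g : α → List ℕ} (hf : Computable f) (hg : Computable g) :
    Computable fun a => joinL (f a) (g a) := (Primrec.to_comp primrec_joinL).comp (hf.pair hg)

@[fun_prop] theorem c_exB {f : α → ℕ → Bool} {n : α → ℕ}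
    (hf : Computable fun x : α × ℕ => f x.1 x.2) (hn : Computable n) :
    Computable fun a => exB (f a) (n a) := by
  unfold exB
  exact cnot (c_allB (cnot hf) hn)

@[fun_prop] theorem c_pi {f g : α → ℕ} (hf : Computable f) (hg : Computable g) :
    Computable fun a => pi (f a) (g a) := by
  unfold pi nd
  fun_prop

@[fun_prop] theorem c_trB {f : α → List ℕ} {g : α → ℕ} (hf : Computable f) (hg : Computable g) :
    Computable fun a => trB (f a) (g a) := by
  have h1 : Computable fun x : α × ℕ => f x.1 := hf.comp Computable.fst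
  have h2 : Computable fun x : α × ℕ => g x.1 := hg.comp Computable.fst
  unfold trB nd
  fun_prop

@[fun_prop] theorem c_tr {f : α → List ℕ} (hf : Computable f) :
    Computable fun a => tr (f a) := by
  have h1 : Computable fun x : α × ℕ => f x.1 := hf.comp Computable.fst
  unfold tr
  fun_prop

@[fun_prop] theorem c_qi {f : α → ℕ} {g : α → List ℕ} (hf : Computable f) (hg : Computable g) :
    Computable fun a => qi (f a) (g a) := by
  unfold qi
  fun_prop

@[fun_prop] theorem c_ui {f : α → ℕ} (hf : Computable f) : Computable fun a => ui (f a) := by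
  unfold ui
  fun_prop

end

/-- the events are computable -/
def CEv (ev : ℕ → List ℕ → List ℕ → List ℕ → Bool) : Prop :=
  Computable fun x : (ℕ × List ℕ) × (List ℕ × List ℕ) => ev x.1.1 x.1.2 x.2.1 x.2.2

section

variable {α : Type*} [Primcodable α] {ev : ℕ → List ℕ → List ℕ → List ℕ → Bool}

theorem c_ev (h : CEv ev) {t : α → ℕ} {s a s' : α → List ℕ} (ht : Computable t)
    (hs : Computable s) (ha : Computable a) (hs' : Computable s') :
    Computable fun x => ev (t x) (s x) (a x) (s' x) :=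
  Computable.comp (f := fun x : (ℕ × List ℕ) × (List ℕ × List ℕ) => ev x.1.1 x.1.2 x.2.1 x.2.2)
    (g := fun x => ((t x, s x), (a x, s' x))) h (by fun_prop)

theorem c_evt {Θ : List ℕ → List ℕ} (hΘ : Computable Θ) : CEv (evt Θ) := by
  unfold CEv
  have hL : ∀ {β : Type} [Primcodable β] {f g : β → List ℕ}, Computable f → Computable g →
      Computable fun x => LL Θ (f x) (g x) := by
    intro β _ f g hf hg
    unfold LL
    exact hΘ.comp (by fun_prop)
  have h1 : Computable fun x : (ℕ × List ℕ) × (List ℕ × List ℕ) => LL Θ x.2.1 x.2.2 :=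
    hL (by fun_prop) (by fun_prop)
  have h2 : Computable fun x : ((ℕ × List ℕ) × (List ℕ × List ℕ)) × ℕ => LL Θ x.1.2.1 x.1.2.2 :=
    hL (by fun_prop) (by fun_prop)
  have h3 : Computable fun x : ((ℕ × List ℕ) × (List ℕ × List ℕ)) × ℕ =>
      Nat.pair x.2 (x.1.1.1 - 1).unpair.1 := by fun_prop
  have h4 : Computable fun x : ((ℕ × List ℕ) × (List ℕ × List ℕ)) × ℕ =>
      Nat.pair (x.1.1.1 - 1).unpair.2 (x.1.1.1 - 1).unpair.1 := by fun_prop
  have h5 : Computable fun x : (ℕ × List ℕ) × (List ℕ × List ℕ) =>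
      Nat.pair (x.1.1 - 1).unpair.2 (x.1.1 - 1).unpair.1 := by fun_prop
  have h6 : Computable fun x : ((ℕ × List ℕ) × (List ℕ × List ℕ)) × ℕ =>
      decide ((x.1.1.1 - 1).unpair.2 < x.2) :=
    c_lt (show Computable fun x : ((ℕ × List ℕ) × (List ℕ × List ℕ)) × ℕ =>
      (x.1.1.1 - 1).unpair.2 by fun_prop) Computable.snd
  have h7 := cand (cand h6 (c_lt h3 (clength h2))) (cnot (c_eq (c_gd0 h2 h3) (c_gd0 h2 h4)))
  have h8 : Computable fun x : (ℕ × List ℕ) × (List ℕ × List ℕ) =>
      exB (fun k => decide ((x.1.1 - 1).unpair.2 < k) &&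
        decide (Nat.pair k (x.1.1 - 1).unpair.1 < (LL Θ x.2.1 x.2.2).length) &&
        !decide ((LL Θ x.2.1 x.2.2).getD (Nat.pair k (x.1.1 - 1).unpair.1) 0 =
          (LL Θ x.2.1 x.2.2).getD (Nat.pair (x.1.1 - 1).unpair.2 (x.1.1 - 1).unpair.1) 0))
        (LL Θ x.2.1 x.2.2).length :=
    c_exB (f := fun (x : (ℕ × List ℕ) × (List ℕ × List ℕ)) k =>
      decide ((x.1.1 - 1).unpair.2 < k) &&
        decide (Nat.pair k (x.1.1 - 1).unpair.1 < (LL Θ x.2.1 x.2.2).length) &&
        !decide ((LL Θ x.2.1 x.2.2).getD (Nat.pair k (x.1.1 - 1).unpair.1) 0 =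
          (LL Θ x.2.1 x.2.2).getD (Nat.pair (x.1.1 - 1).unpair.2 (x.1.1 - 1).unpair.1) 0))
      h7 (clength h1)
  have h9 : Computable fun x : (ℕ × List ℕ) × (List ℕ × List ℕ) => decide (x.1.1 = 0) :=
    c_eq0 (by fun_prop)
  have h11 : Computable fun x : (ℕ × List ℕ) × (List ℕ × List ℕ) => x.1.2.length := by fun_prop
  have h12 : Computable fun x : (ℕ × List ℕ) × (List ℕ × List ℕ) => x.2.2 := by fun_prop
  have h10 : Computable fun x : (ℕ × List ℕ) × (List ℕ × List ℕ) =>
      decide (x.1.2.length < x.2.2.length) && !decide (x.2.2.getD x.1.2.length 0 = 0) :=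
    cand (c_lt h11 (clength h12)) (cnot (c_eq0 (c_gd0 h12 h11)))
  exact ccond h9 h10 (cand (c_lt h5 (clength h1)) h8)

theorem c_RR (hev : CEv ev) {φ : List ℕ → List ℕ} (hφ : Computable φ) :
    Computable fun x : ℕ × List ℕ × List ℕ => RR ev φ x.1 x.2.1 x.2.2 := by
  have h1 : Computable fun x : (ℕ × List ℕ × List ℕ) × ℕ =>
      chkC ev x.1.1.unpair.1 (nd x.1.1.unpair.2) x.1.2.1 x.1.2.2 (x.2 / 2) := by
    have h2 : Computable fun x : (ℕ × List ℕ × List ℕ) × ℕ =>
        ev x.1.1.unpair.1 (nd x.1.1.unpair.2) (x.1.2.1.take (x.2 / 2).unpair.1)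
          (nd (x.2 / 2).unpair.2) := by
      apply c_ev hev <;> fun_prop
    have k1 : Computable fun x : (ℕ × List ℕ × List ℕ) × ℕ => nd x.1.1.unpair.2 := by fun_prop
    have k2 : Computable fun x : (ℕ × List ℕ × List ℕ) × ℕ => nd (x.2 / 2).unpair.2 := by fun_prop
    have k3 : Computable fun x : (ℕ × List ℕ × List ℕ) × ℕ =>
        x.1.2.2.getD (2 * (x.2 / 2)) 0 := by fun_prop
    have k4 : Computable fun x : (ℕ × List ℕ × List ℕ) × ℕ =>
        x.1.2.2.getD (2 * x.1.2.2.getD (2 * (x.2 / 2)) 0 + 1) 1 := by fun_prop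
    exact cor (cnot (cand (c_prefix k1 k2) h2)) (cand (cand (cand (c_le (clength k1) k3)
      (c_lt k3 (clength k2))) (cnot (c_eq0 (c_gd0 k2 k3)))) (cnot (c_eq0 k4)))
  have h3 : Computable fun x : (ℕ × List ℕ × List ℕ) × ℕ =>
      chkJ φ x.1.2.1 x.1.2.2 (x.2 / 2) := by
    have h4 : Computable fun x : (ℕ × List ℕ × List ℕ) × ℕ => φ x.1.2.1 := hφ.comp (by fun_prop)
    have h5 : Computable fun x : (ℕ × List ℕ × List ℕ) × ℕ =>
        (x.1.2.2.getD (2 * (x.2 / 2) + 1) 0 - 1).unpair.1 := by fun_prop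
    have h6 : Computable fun x : (ℕ × List ℕ × List ℕ) × ℕ =>
        (x.1.2.2.getD (2 * (x.2 / 2) + 1) 0 - 1).unpair.2 := by fun_prop
    have h7 : Computable fun x : (ℕ × List ℕ × List ℕ) × ℕ => x.2 / 2 := by fun_prop
    have h8 : Computable fun x : (ℕ × List ℕ × List ℕ) × ℕ => x.1.2.2 := by fun_prop
    have h9 : ∀ {f : (ℕ × List ℕ × List ℕ) × ℕ → ℕ}, Computable f →
        Computable fun x : (ℕ × List ℕ × List ℕ) × ℕ =>
          decide (x.1.2.2.getD (2 * f x + 1) 1 = 0) := fun {f} hf =>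
      c_eq0 (c_gd1 h8 (show Computable fun x => 2 * f x + 1 by fun_prop))
    have h10 : Computable fun x : (ℕ × List ℕ × List ℕ) × ℕ =>
        decide (x.1.2.2.getD (2 * (x.2 / 2) + 1) 0 = 0) :=
      c_eq0 (c_gd0 h8 (show Computable fun x : (ℕ × List ℕ × List ℕ) × ℕ =>
        2 * (x.2 / 2) + 1 by fun_prop))
    exact cor h10 (cand (cand (cand (cand (cand (cand (c_prefix (c_nd h7) (c_nd h5))
      (c_prefix (c_nd h7) (c_nd h6))) (cnot (c_prefix (c_nd h5) (c_nd h6))))
      (cnot (c_prefix (c_nd h6) (c_nd h5)))) (cnot (h9 h5))) (cnot (h9 h6)))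
      (c_eq1 (c_gd1 h4 h7)))
  have h12 : Computable fun x : (ℕ × List ℕ × List ℕ) × ℕ => decide (x.2 % 2 = 0) :=
    c_eq0 (c_mod2 Computable.snd)
  have h13 : Computable fun x : ℕ × List ℕ × List ℕ => x.2.2 := by fun_prop
  exact c_allB (f := fun (x : ℕ × List ℕ × List ℕ) k => bif decide (k % 2 = 0) then
    chkC ev x.1.unpair.1 (nd x.1.unpair.2) x.2.1 x.2.2 (k / 2) else
    chkJ φ x.2.1 x.2.2 (k / 2)) (ccond h12 h1 h3) (clength h13)

theorem c_goodB (hev : CEv ev) {w s : α → List ℕ} {t c : α → ℕ} (hw : Computable w)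
    (hs : Computable s) (ht : Computable t) (hc : Computable c) :
    Computable fun x => goodB ev (w x) (t x) (s x) (c x) := by
  have h1 : Computable fun x => ev (t x) (s x) ((evens (w x)).take (c x).unpair.1)
      (nd (c x).unpair.2) := by
    apply c_ev hev <;> fun_prop
  have g1 : Computable fun x : α × ℕ => w x.1 := hw.comp Computable.fst
  have g4 : Computable fun x : α × ℕ => c x.1 := hc.comp Computable.fst
  have h2 : Computable fun x => nd (c x).unpair.2 := by fun_prop
  have h3 : Computable fun x : α × ℕ => decide ((odds (w x.1)).getD (ui x.2) 1 = 0) := by fun_prop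
  unfold goodB
  exact cand (cand (cand (c_prefix hs h2) (c_lt (clength hs) (clength h2)))
    (c_allB (ccond (by fun_prop) (cnot h3) h3) (clength h2))) (cor (by fun_prop) h1)

theorem c_cB (hev : CEv ev) {w s : α → List ℕ} {t : α → ℕ} (hw : Computable w)
    (hs : Computable s) (ht : Computable t) : Computable fun x => cB ev (w x) (t x) (s x) := by
  unfold cB
  exact c_findN (c_goodB hev (hw.comp Computable.fst) (hs.comp Computable.fst)
    (ht.comp Computable.fst) Computable.snd) (by fun_prop)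

theorem c_stepB (hev : CEv ev) {w s : α → List ℕ} {t : α → ℕ} (hw : Computable w)
    (hs : Computable s) (ht : Computable t) :
    Computable fun x => stepB ev (w x) (t x) (s x) := by
  have h1 := c_cB hev hw hs ht
  have g1 : Computable fun x : α × ℕ => w x.1 := hw.comp Computable.fst
  unfold stepB okc
  exact ccond (cand (c_lt h1 (clength hw)) (cand (cand (c_le h1 (by fun_prop))
    (c_allB (by fun_prop) h1)) (by fun_prop))) (csome (by fun_prop)) (by fun_prop)

theorem c_run (hev : CEv ev) {w : α → List ℕ} {t : α → ℕ} (hw : Computable w)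
    (ht : Computable t) : Computable fun x => run ev (w x) (t x) := by
  unfold run
  refine Computable.nat_rec (h := fun x (y : ℕ × Option (List ℕ)) => bif y.2.isSome then
    stepB ev (w x) y.1 (y.2.getD []) else none) ht (Computable.const _) ?_
  show Computable fun z : α × (ℕ × Option (List ℕ)) => bif z.2.2.isSome then
    stepB ev (w z.1) z.2.1 (z.2.2.getD []) else none
  have h1 : Computable fun z : α × (ℕ × Option (List ℕ)) =>
      stepB ev (w z.1) z.2.1 (z.2.2.getD []) :=
    c_stepB hev (hw.comp Computable.fst) (by fun_prop) (by fun_prop)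
  fun_prop

theorem c_gD {Θ : List ℕ → List ℕ} (hΘ : Computable Θ) :
    Computable fun x : List ℕ × ℕ => gD Θ x.1 x.2 := by
  have hev := c_evt hΘ
  have hL : ∀ {β : Type} [Primcodable β] {f g : β → List ℕ}, Computable f → Computable g →
      Computable fun x => LL Θ (f x) (g x) := by
    intro β _ f g hf hg
    unfold LL
    exact hΘ.comp (by fun_prop)
  have h1 : Computable fun x : (List ℕ × ℕ) × ℕ => tstB Θ x.1.1 (x.1.2 / 2) x.2 := by
    have r1 : Computable fun x : (List ℕ × ℕ) × ℕ =>
        run (evt Θ) x.1.1 (Nat.pair (x.1.2 / 2) x.2.unpair.1 + 1) :=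
      c_run hev (by fun_prop) (by fun_prop)
    have r2 : Computable fun x : (List ℕ × ℕ) × ℕ => run (evt Θ) x.1.1 x.2.unpair.2 :=
      c_run hev (by fun_prop) (by fun_prop)
    have r3 : Computable fun x : (List ℕ × ℕ) × ℕ =>
        LL Θ (evens x.1.1) ((run (evt Θ) x.1.1 x.2.unpair.2).getD []) :=
      hL (by fun_prop) (by fun_prop)
    have r4 : Computable fun x : (List ℕ × ℕ) × ℕ => qi (Nat.pair (x.1.2 / 2) x.2.unpair.1 + 1)
        ((run (evt Θ) x.1.1 (Nat.pair (x.1.2 / 2) x.2.unpair.1 + 1)).getD []) :=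
      c_qi (by fun_prop) (c_optGetD r1)
    unfold tstB
    exact cand (cand (cand (cand (cisSome r1) (cisSome r2)) (c_lt r4 (by fun_prop)))
      (cnot (c_eq0 (c_gd1 (by fun_prop) r4)))) (c_lt (by fun_prop) (clength r3))
  have h2 : Computable fun x : List ℕ × ℕ => cT Θ x.1 (x.2 / 2) := by
    unfold cT
    exact c_findN h1 (by fun_prop)
  have h3 : Computable fun x : List ℕ × ℕ => run (evt Θ) x.1 (cT Θ x.1 (x.2 / 2)).unpair.2 :=
    c_run hev (by fun_prop) (by fun_prop)
  have h4 : Computable fun x : List ℕ × ℕ =>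
      LL Θ (evens x.1) ((run (evt Θ) x.1 (cT Θ x.1 (x.2 / 2)).unpair.2).getD []) :=
    hL (by fun_prop) (by fun_prop)
  have h5 : Computable fun x : List ℕ × ℕ => run (evt Θ) x.1 (x.2 / 2 + 1) :=
    c_run hev (by fun_prop) (by fun_prop)
  unfold gD
  exact ccond (by fun_prop) (ccond (cisSome h5) (csome (c_gd0 (c_tr (c_optGetD h5))
    (by fun_prop))) (by fun_prop)) (ccond (c_lt h2 (by fun_prop))
      (csome (c_gd0 h4 (by fun_prop))) (by fun_prop))

end

end Pool.Agent.Q205.PKL
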