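import Pool.Agent.Q205.PKL.Ev

/-!
The decoder.
-/

set_option autoImplicit false

namespace Pool.Agent.Q205.PKL

open Q204.WD Encodable

/-- index of the answer to the question `(t, s)` in the characteristic function of the kernel -/
def qi (t : ℕ) (s : List ℕ) : ℕ := encode [Nat.pair t (encode s)]

/-- index of the answer to the question whether `i` is in `U` -/
def ui (i : ℕ) : ℕ := qi 0 (List.replicate i 0)

variable (ev : ℕ → List ℕ → List ℕ → List ℕ → Bool)

/-- computable version of `Good` -/
def goodB (w : List ℕ) (t : ℕ) (s : List ℕ) (c : ℕ) : Bool :=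
  decide (s <+: nd c.unpair.2) && decide (s.length < (nd c.unpair.2).length) &&
    allB (fun i => bif decide ((nd c.unpair.2).getD i 0 = 0) then
      !decide ((odds w).getD (ui i) 1 = 0) else decide ((odds w).getD (ui i) 1 = 0))
      (nd c.unpair.2).length &&
    (!decide ((odds w).getD (qi t s) 1 = 0) || ev t s ((evens w).take c.unpair.1) (nd c.unpair.2))

/-- the oracle part of `w` is long enough for the test of the candidates up to `c` -/
def okc (w : List ℕ) (t : ℕ) (s : List ℕ) (c : ℕ) : Bool :=
  decide (c ≤ (evens w).length) && allB (fun i => decide (ui i < (odds w).length)) c &&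
    decide (qi t s < (odds w).length)

/-- the search of a stage -/
def cB (w : List ℕ) (t : ℕ) (s : List ℕ) : ℕ := findN (goodB ev w t s) w.length

/-- the step of a stage -/
def stepB (w : List ℕ) (t : ℕ) (s : List ℕ) : Option (List ℕ) :=
  bif decide (cB ev w t s < w.length) && okc w t s (cB ev w t s) then
    some (nd (cB ev w t s).unpair.2) else none

/-- the finite run -/
def run (w : List ℕ) (t : ℕ) : Option (List ℕ) :=
  Nat.rec (motive := fun _ => Option (List ℕ)) (some [])
    (fun i r => bif r.isSome then stepB ev w i (r.getD []) else none) t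

theorem run_zero (w : List ℕ) : run ev w 0 = some [] := rfl

theorem run_succ (w : List ℕ) (t : ℕ) : run ev w (t + 1) =
    bif (run ev w t).isSome then stepB ev w t ((run ev w t).getD []) else none := rfl

variable {ev} {U : Set ℕ} {p κ : ℕ → ℕ}

/-- `κ` answers the questions -/
structure Answers (ev : ℕ → List ℕ → List ℕ → List ℕ → Bool) (U : Set ℕ) (p κ : ℕ → ℕ) : Prop where
  q : ∀ t s, κ (qi t s) = 0 ↔ X ev U p t s
  u : ∀ i, κ (ui i) = 0 ↔ i ∈ U

theorem goodB_iff (hκ : Answers ev U p κ) {N t c c' : ℕ} {s : List ℕ}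
    (h : okc (pre (join p κ) N) t s c = true) (hc : c' ≤ c) :
    goodB ev (pre (join p κ) N) t s c' = true ↔ Good ev U p t s c' := by
  unfold okc at h
  rw [evens_pre_join, odds_pre_join] at h
  simp only [Bool.and_eq_true, decide_eq_true_eq, allB_iff, pre_length] at h
  obtain ⟨⟨h1, h2⟩, h3⟩ := h
  unfold goodB Good
  rw [evens_pre_join, odds_pre_join]
  simp only [Bool.and_eq_true, decide_eq_true_eq, allB_iff, Bool.or_eq_true, Bool.not_eq_true',
    decide_eq_false_iff_not]
  rw [pre_take p ((Nat.unpair_left_le c').trans (hc.trans h1)), getD_pre1, if_pos h3, hκ.q,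
    and_assoc, and_assoc]
  refine and_congr Iff.rfl (and_congr Iff.rfl (and_congr ?_ ?_))
  · refine forall₂_congr fun i hi => ?_
    have h4 : i < c := lt_of_lt_of_le (lt_of_lt_of_le hi (length_nd _))
      ((Nat.unpair_right_le c').trans hc)
    rw [getD_pre1, if_pos (h2 i h4)]
    by_cases h5 : (nd c'.unpair.2).getD i 0 = 0
    · rw [decide_eq_true h5, cond_true, Bool.not_eq_true', decide_eq_false_iff_not, hκ.u]
      exact ⟨fun h => iff_of_false (fun h6 => h6 h5) h, fun h h6 => h.2 h6 h5⟩
    · rw [decide_eq_false h5, cond_false, decide_eq_true_iff, hκ.u]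
      exact ⟨fun h => iff_of_true h5 h, fun h => h.1 h5⟩
  · exact ⟨fun h h4 => h.resolve_left (fun h5 => h5 h4), fun h => by
      by_cases h5 : X ev U p t s
      · exact Or.inr (h h5)
      · exact Or.inl h5⟩

theorem stepB_sound (hκ : Answers ev U p κ) {N t : ℕ} {s s' : List ℕ}
    (h : stepB ev (pre (join p κ) N) t s = some s') : s' = nd (lc ev U p t s).unpair.2 := by
  unfold stepB at h
  cases hb : decide (cB ev (pre (join p κ) N) t s < (pre (join p κ) N).length) &&
      okc (pre (join p κ) N) t s (cB ev (pre (join p κ) N) t s)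
  · rw [hb] at h
    exact absurd h (by simp)
  · rw [hb, cond_true, Option.some.injEq] at h
    rw [Bool.and_eq_true, decide_eq_true_iff] at hb
    have h1 := findN_spec (goodB ev (pre (join p κ) N) t s) (pre (join p κ) N).length
    have h2 : goodB ev (pre (join p κ) N) t s (cB ev (pre (join p κ) N) t s) = true := h1.1 hb.1
    have h3 : Good ev U p t s (cB ev (pre (join p κ) N) t s) := (goodB_iff hκ hb.2 le_rfl).1 h2
    have h4 : lc ev U p t s = cB ev (pre (join p κ) N) t s := by
      refine le_antisymm (Nat.sInf_le h3) ?_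
      by_contra hlt
      push Not at hlt
      have h5 : Good ev U p t s (lc ev U p t s) :=
        Nat.sInf_mem (s := {c | Good ev U p t s c}) ⟨_, h3⟩
      rw [← goodB_iff hκ hb.2 hlt.le] at h5
      have h6 := h1.2 _ hlt
      rw [h5] at h6
      exact absurd h6 (by simp)
    rw [h4, h]

theorem okc_large (t : ℕ) (s : List ℕ) (c : ℕ) :
    ∃ M, ∀ N, M ≤ N → okc (pre (join p κ) N) t s c = true := by
  obtain ⟨B, hB⟩ : ∃ B, ∀ i < c, ui i < B := by
    obtain ⟨B, hB⟩ := ((Finset.range c).image ui).exists_le
    exact ⟨B + 1, fun i hi => Nat.lt_succ_of_le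
      (hB _ (Finset.mem_image_of_mem _ (Finset.mem_range.2 hi)))⟩
  refine ⟨2 * (B + c + qi t s + 1), fun N hN => ?_⟩
  unfold okc
  rw [evens_pre_join, odds_pre_join]
  simp only [Bool.and_eq_true, decide_eq_true_eq, allB_iff, pre_length]
  refine ⟨⟨by omega, fun i hi => ?_⟩, by omega⟩
  have := hB i hi
  omega

theorem stepB_complete (hκ : Answers ev U p κ) {t : ℕ} {s : List ℕ}
    (hex : ∃ c, Good ev U p t s c) :
    ∃ M, ∀ N, M ≤ N → stepB ev (pre (join p κ) N) t s = some (nd (lc ev U p t s).unpair.2) := by
  have hl : Good ev U p t s (lc ev U p t s) := Nat.sInf_mem hex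
  obtain ⟨M, hM⟩ := okc_large (p := p) (κ := κ) t s (lc ev U p t s)
  refine ⟨max M (lc ev U p t s + 1), fun N hN => ?_⟩
  have hok := hM N ((le_max_left _ _).trans hN)
  have hlt : lc ev U p t s < N := (le_max_right _ _).trans hN
  have h1 : cB ev (pre (join p κ) N) t s = lc ev U p t s := by
    refine findN_eq (by simpa using hlt) ((goodB_iff hκ hok le_rfl).2 hl) fun i hi => ?_
    rw [← Bool.not_eq_true, goodB_iff hκ hok hi.le]
    intro h2
    exact absurd (Nat.sInf_le h2) (not_le.2 hi)
  unfold stepB
  rw [h1, hok, decide_eq_true (by simpa using hlt), Bool.and_self, cond_true]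

theorem run_sound (hκ : Answers ev U p κ) {N t : ℕ} {s : List ℕ}
    (h : run ev (pre (join p κ) N) t = some s) : s = sq ev U p t := by
  induction t generalizing s with
  | zero =>
    rw [run_zero, Option.some.injEq] at h
    exact h.symm
  | succ t ih =>
    rw [run_succ] at h
    cases hr : run ev (pre (join p κ) N) t with
    | none =>
      rw [hr] at h
      exact absurd h (by simp)
    | some r =>
      rw [hr] at h
      simp only [Option.isSome_some, cond_true, Option.getD_some] at h
      have h1 := stepB_sound hκ h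
      rw [ih hr] at h1
      exact h1

theorem run_complete (hev : EvOK ev) (hκ : Answers ev U p κ) (t : ℕ) :
    ∃ M, ∀ N, M ≤ N → run ev (pre (join p κ) N) t = some (sq ev U p t) := by
  induction t with
  | zero => exact ⟨0, fun N _ => rfl⟩
  | succ t ih =>
    obtain ⟨M1, h1⟩ := ih
    obtain ⟨M2, h2⟩ := stepB_complete hκ (exists_good (p := p) hev (exact_sq hev t) t)
    refine ⟨max M1 M2, fun N hN => ?_⟩
    rw [run_succ, h1 N ((le_max_left _ _).trans hN)]
    simp only [Option.isSome_some, cond_true, Option.getD_some]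
    exact h2 N ((le_max_right _ _).trans hN)

/-! ### The output -/

variable (Θ : List ℕ → List ℕ)

/-- the test for the second output -/
def tstB (w : List ℕ) (n c : ℕ) : Bool :=
  (run (evt Θ) w (Nat.pair n c.unpair.1 + 1)).isSome && (run (evt Θ) w c.unpair.2).isSome &&
    decide (qi (Nat.pair n c.unpair.1 + 1) ((run (evt Θ) w (Nat.pair n c.unpair.1 + 1)).getD []) <
      (odds w).length) &&
    !decide ((odds w).getD (qi (Nat.pair n c.unpair.1 + 1)
      ((run (evt Θ) w (Nat.pair n c.unpair.1 + 1)).getD [])) 1 = 0) &&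
    decide (Nat.pair c.unpair.1 n <
      (LL Θ (evens w) ((run (evt Θ) w c.unpair.2).getD [])).length)

/-- the search for the second output -/
def cT (w : List ℕ) (n : ℕ) : ℕ := findN (tstB Θ w n) w.length

/-- the search of the decoder -/
def gD (w : List ℕ) (i : ℕ) : Option ℕ :=
  bif decide (i % 2 = 0) then
    (bif (run (evt Θ) w (i / 2 + 1)).isSome then
      some ((tr ((run (evt Θ) w (i / 2 + 1)).getD [])).getD (i / 2) 0) else none)
  else (bif decide (cT Θ w (i / 2) < w.length) then
    some ((LL Θ (evens w) ((run (evt Θ) w (cT Θ w (i / 2)).unpair.2).getD [])).getD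
      (Nat.pair (cT Θ w (i / 2)).unpair.1 (i / 2)) 0) else none)

variable {Θ}

theorem conv_dec (hΘ : Mono Θ) (hκ : Answers (evt Θ) U p κ) {u v : ℕ → ℕ}
    (hu : Eval Θ (join p (trC (gs (evt Θ) U p))) u) (hv : v ∈ Lim u) :
    Conv (fun n => mach (gD Θ) (pre (join p κ) n)) (join (trC (gs (evt Θ) U p)) v) := by
  have hev := evt_ok hΘ
  set q := trC (gs (evt Θ) U p) with hq
  -- the lists of values
  have hLL : ∀ m k, LL Θ (pre p m) (pre (gs (evt Θ) U p) k) =
      pre u (LL Θ (pre p m) (pre (gs (evt Θ) U p) k)).length := by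
    intro m k
    have h1 := (conv_pre (join p q)).comp hΘ hu
    have h2 := h1.1 (2 * min m k)
    unfold LL
    rw [tr_pre, joinL_pre]
    exact h2
  have hLL2 : ∀ b, ∃ M, ∀ m k, M ≤ m → M ≤ k →
      b < (LL Θ (pre p m) (pre (gs (evt Θ) U p) k)).length := by
    intro b
    obtain ⟨M, hM⟩ := ((conv_pre (join p q)).comp hΘ hu).2 (b + 1)
    refine ⟨M, fun m k hm hk => ?_⟩
    unfold LL
    rw [tr_pre, joinL_pre]
    exact hM _ (by
      have : M ≤ min m k := le_min hm hk
      omega)
  have hsq := fun t => sq_eq_pre (U := U) (p := p) hev t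
  -- events
  have hevent : ∀ n m, ¬ X (evt Θ) U p (Nat.pair n m + 1) (sq (evt Θ) U p (Nat.pair n m + 1)) ↔
      ∀ k, m < k → u (Nat.pair k n) = u (Nat.pair m n) := by
    intro n m
    rw [X_iff hev]
    constructor
    · intro h k hk
      by_contra hne
      obtain ⟨M, hM⟩ := hLL2 (max (Nat.pair k n) (Nat.pair m n))
      have h1 := hM M M le_rfl le_rfl
      refine h ⟨M, (evt_succ _ _ _ _ _).2 ⟨k, hk, lt_of_le_of_lt (le_max_right _ _) h1,
        lt_of_le_of_lt (le_max_left _ _) h1, ?_⟩⟩
      rw [hLL M M, getD_pre1, getD_pre1, if_pos (lt_of_le_of_lt (le_max_left _ _) h1),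
        if_pos (lt_of_le_of_lt (le_max_right _ _) h1)]
      exact hne
    · rintro h ⟨N, hN⟩
      obtain ⟨k, h1, h2, h3, h4⟩ := (evt_succ _ _ _ _ _).1 hN
      rw [hLL N N, getD_pre1, getD_pre1, if_pos h3, if_pos h2] at h4
      exact h4 (h k h1)
  have hlimv : ∀ n m, (∀ k, m < k → u (Nat.pair k n) = u (Nat.pair m n)) →
      u (Nat.pair m n) = v n := by
    intro n m h
    obtain ⟨k, h1, h2⟩ := ((Filter.eventually_gt_atTop m).and (hv n)).exists
    rw [← h k h1, h2]
  refine conv_mach (fun i => ?_) (fun i N b hb => ?_)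
  · -- completeness
    by_cases hi : i % 2 = 0
    · obtain ⟨M, hM⟩ := run_complete hev hκ (i / 2 + 1)
      refine ⟨M, ?_⟩
      unfold gD
      rw [decide_eq_true hi, cond_true, hM M le_rfl]
      rfl
    · obtain ⟨m, hm⟩ : ∃ m, ∀ k, m < k → u (Nat.pair k (i / 2)) = u (Nat.pair m (i / 2)) := by
        obtain ⟨m, hm⟩ := Filter.eventually_atTop.1 (hv (i / 2))
        refine ⟨m, fun k hk => ?_⟩
        rw [hm k hk.le, hm m le_rfl]
      obtain ⟨M1, hM1⟩ := run_complete hev hκ (Nat.pair (i / 2) m + 1)
      obtain ⟨M2, hM2⟩ := hLL2 (Nat.pair m (i / 2))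
      obtain ⟨M3, hM3⟩ := run_complete hev hκ M2
      refine ⟨2 * (M1 + M2 + M3 + Nat.pair m M2 +
        qi (Nat.pair (i / 2) m + 1) (sq (evt Θ) U p (Nat.pair (i / 2) m + 1)) + 1), ?_⟩
      set N := 2 * (M1 + M2 + M3 + Nat.pair m M2 +
        qi (Nat.pair (i / 2) m + 1) (sq (evt Θ) U p (Nat.pair (i / 2) m + 1)) + 1) with hN
      have ht : tstB Θ (pre (join p κ) N) (i / 2) (Nat.pair m M2) = true := by
        unfold tstB
        rw [Nat.unpair_pair]
        simp only
        rw [hM1 N (by omega), hM3 N (by omega), evens_pre_join, odds_pre_join]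
        simp only [Option.isSome_some, Option.getD_some, Bool.true_and, Bool.and_eq_true,
          decide_eq_true_eq, Bool.not_eq_true', decide_eq_false_iff_not, pre_length]
        refine ⟨⟨by omega, ?_⟩, ?_⟩
        · rw [getD_pre1, if_pos (by omega), hκ.q]
          exact (hevent _ _).2 hm
        · rw [hsq M2]
          exact hM2 _ _ (by omega) (sq_length hev M2)
      have h1 : cT Θ (pre (join p κ) N) (i / 2) < (pre (join p κ) N).length :=
        findN_lt (by simp; omega) ht
      unfold gD
      rw [decide_eq_false hi, cond_false, decide_eq_true h1, cond_true]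
      rfl
  · -- soundness
    unfold gD at hb
    by_cases hi : i % 2 = 0
    · rw [decide_eq_true hi, cond_true] at hb
      obtain ⟨j, rfl⟩ : ∃ j, i = 2 * j := ⟨i / 2, by omega⟩
      have hj : 2 * j / 2 = j := by omega
      rw [hj] at hb
      rw [join_even]
      cases hr : run (evt Θ) (pre (join p κ) N) (j + 1) with
      | none =>
        rw [hr] at hb
        exact absurd hb (by simp)
      | some s =>
        rw [hr] at hb
        simp only [Option.isSome_some, cond_true, Option.getD_some, Option.some.injEq] at hb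
        have h1 := run_sound hκ hr
        rw [← hb, h1, hsq, tr_pre, getD_pre1, if_pos]
        exact lt_of_lt_of_le (Nat.lt_succ_self j) (sq_length hev _)
    · rw [decide_eq_false hi, cond_false] at hb
      obtain ⟨n, rfl⟩ : ∃ n, i = 2 * n + 1 := ⟨i / 2, by omega⟩
      have hj : (2 * n + 1) / 2 = n := by omega
      rw [hj] at hb
      rw [join_odd]
      by_cases hc : cT Θ (pre (join p κ) N) n < (pre (join p κ) N).length
      · rw [decide_eq_true hc, cond_true, Option.some.injEq] at hb
        have ht : tstB Θ (pre (join p κ) N) n (cT Θ (pre (join p κ) N) n) = true :=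
          (findN_spec _ _).1 hc
        set c := cT Θ (pre (join p κ) N) n with hcdef
        unfold tstB at ht
        simp only [Bool.and_eq_true, decide_eq_true_eq, Bool.not_eq_true',
          decide_eq_false_iff_not] at ht
        obtain ⟨⟨⟨⟨h1, h2⟩, h3⟩, h4⟩, h5⟩ := ht
        obtain ⟨s0, hs0⟩ := Option.isSome_iff_exists.1 h1
        obtain ⟨s1, hs1⟩ := Option.isSome_iff_exists.1 h2
        rw [hs0, Option.getD_some] at h3 h4
        rw [hs1, Option.getD_some] at h5 hb
        have e0 := run_sound hκ hs0
        have e1 := run_sound hκ hs1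
        rw [odds_pre_join] at h3 h4
        rw [pre_length] at h3
        rw [getD_pre1, if_pos h3, hκ.q, e0, hevent] at h4
        rw [evens_pre_join, e1, hsq] at h5 hb
        rw [hLL, getD_pre1, if_pos h5] at hb
        rw [← hb]
        exact hlimv _ _ h4
      · rw [decide_eq_false hc, cond_false] at hb
        exact absurd hb (by simp)

end Pool.Agent.Q205.PKL
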