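import Pool.Agent.Q204.WD.Defs

/-!
# The problems `lim`, `PK` and `PK` for closed sets, on Baire space
-/

set_option autoImplicit false

namespace Pool.Agent.Q205.PKL

open Q204.WD Filter Topology

/-- A tree: a set of finite sequences which is closed under initial segments. -/
def IsTree (T : Set (List ℕ)) : Prop := ∀ σ τ : List ℕ, σ <+: τ → τ ∈ T → σ ∈ T

/-- The body: the set of the infinite paths. -/
def body (T : Set (List ℕ)) : Set (ℕ → ℕ) := {x | ∀ n, pre x n ∈ T}

/-- Every element has two incomparable extensions. -/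
def IsPerfect (T : Set (List ℕ)) : Prop :=
  ∀ σ ∈ T, ∃ τ ∈ T, ∃ τ' ∈ T, σ <+: τ ∧ σ <+: τ' ∧ ¬ τ <+: τ' ∧ ¬ τ' <+: τ

/-- The largest perfect subtree: the union of all perfect subtrees. -/
def kernel (T : Set (List ℕ)) : Set (List ℕ) :=
  {σ | ∃ P, IsTree P ∧ IsPerfect P ∧ P ⊆ T ∧ σ ∈ P}

/-- `p` names the tree `T`: it is its characteristic function (finite sequences are coded by
natural numbers by Mathlib's bijection). -/
def Names (p : ℕ → ℕ) (T : Set (List ℕ)) : Prop :=
  IsTree T ∧ ∀ σ, (σ ∈ T ∧ p (Encodable.encode σ) = 1) ∨ (σ ∉ T ∧ p (Encodable.encode σ) = 0)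

/-- The perfect kernel of a closed set: the union of all its perfect subsets. -/
def PKer (A : Set (ℕ → ℕ)) : Set (ℕ → ℕ) := ⋃₀ {P | Perfect P ∧ P ⊆ A}

/-- The problem `PK`: given a tree, find its largest perfect subtree. -/
def PK : Problem := fun p => {s | ∃ T, Names p T ∧ Names s (kernel T)}

/-- The problem `PK` for closed subsets of Baire space, a closed set being named by any tree with
this body: given a tree, find a tree whose body is the perfect kernel of its body. -/
def PKN : Problem := fun p => {s | ∃ T S, Names p T ∧ Names s S ∧ body S = PKer (body T)}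

/-- The limit of a convergent sequence of points of Baire space; the `k`-th point of the sequence
named by `p` is `n ↦ p ⟨k, n⟩`. -/
def Lim : Problem := fun p => {s | ∀ n, ∀ᶠ k in atTop, p (Nat.pair k n) = s n}

end Pool.Agent.Q205.PKL
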