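import Pool.Agent.Q205.PKL.Seq

/-!
The tree given by a sequence of delays, and the events.
-/

set_option autoImplicit false

namespace Pool.Agent.Q205.PKL

open Q204.WD Encodable

theorem encode_take_le (σ : List ℕ) (m : ℕ) : encode (σ.take m) ≤ encode σ := by
  induction σ generalizing m with
  | nil => simp
  | cons a l ih =>
    cases m with
    | zero => simp
    | succ m =>
      rw [List.take_succ_cons, encode_list_cons, encode_list_cons]
      refine Nat.succ_le_succ ?_
      rcases eq_or_lt_of_le (ih m) with h | h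
      · rw [h]
      · exact (Nat.pair_lt_pair_right _ h).le

/-- index of a prefix of the node `i` -/
def pi (i m : ℕ) : ℕ := encode ((nd i).take m)

theorem pi_le (i m : ℕ) : pi i m ≤ i := by
  have := encode_take_le (nd i) m
  rwa [Denumerable.encode_ofNat] at this

theorem length_nd (i : ℕ) : (nd i).length ≤ i := by
  have := length_le_encode (nd i)
  rwa [Denumerable.encode_ofNat] at this

/-- the finite part of the tree given by a finite sequence of delays -/
def trB (s : List ℕ) (i : ℕ) : Bool :=
  allB (fun m => decide (s.getD (pi i m) 0 = 0) || decide ((nd i).length < s.getD (pi i m) 0))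
    ((nd i).length + 1)

/-- the characteristic function of the finite part -/
def tr (s : List ℕ) : List ℕ := (List.range s.length).map fun i => bif trB s i then 1 else 0

/-- the tree given by a sequence of delays -/
def trS (x : ℕ → ℕ) : Set (List ℕ) :=
  {σ | ∀ m ≤ σ.length, x (encode (σ.take m)) = 0 ∨ σ.length < x (encode (σ.take m))}

open Classical in
/-- its characteristic function -/
noncomputable def trC (x : ℕ → ℕ) (i : ℕ) : ℕ := if nd i ∈ trS x then 1 else 0

theorem trB_congr {s s' : List ℕ} {i : ℕ} (h : ∀ m ≤ (nd i).length,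
    (s.getD (pi i m) 0 = 0 ∨ (nd i).length < s.getD (pi i m) 0) ↔
    (s'.getD (pi i m) 0 = 0 ∨ (nd i).length < s'.getD (pi i m) 0)) : trB s i = trB s' i := by
  unfold trB
  rw [Bool.eq_iff_iff, allB_iff, allB_iff]
  refine forall₂_congr fun m hm => ?_
  rw [Bool.or_eq_true, Bool.or_eq_true, decide_eq_true_iff, decide_eq_true_iff,
    decide_eq_true_iff, decide_eq_true_iff]
  exact h m (by omega)

theorem tr_pre (x : ℕ → ℕ) (N : ℕ) : tr (pre x N) = pre (trC x) N := by
  classical
  unfold tr
  rw [pre_length]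
  apply List.map_congr_left
  intro i hi
  rw [List.mem_range] at hi
  have h1 : trB (pre x N) i = true ↔ nd i ∈ trS x := by
    unfold trB trS
    rw [allB_iff]
    constructor
    · intro h m hm
      have h2 := h m (by omega)
      rw [Bool.or_eq_true, decide_eq_true_iff, decide_eq_true_iff, getD_pre1,
        if_pos (lt_of_le_of_lt (pi_le i m) hi)] at h2
      exact h2
    · intro h m hm
      rw [Bool.or_eq_true, decide_eq_true_iff, decide_eq_true_iff, getD_pre1,
        if_pos (lt_of_le_of_lt (pi_le i m) hi)]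
      exact h m (by omega)
  unfold trC
  by_cases h2 : nd i ∈ trS x
  · rw [h1.2 h2, if_pos h2, cond_true]
  · rw [if_neg h2, Bool.eq_false_iff.2 fun h => h2 (h1.1 h), cond_false]

theorem tr_mono {s s' : List ℕ} (h : s <+: s') : tr s <+: tr s' := by
  obtain ⟨h1, h2⟩ := prefix_iff_getD.1 h
  refine map_range_prefix h1 fun i hi => ?_
  rw [trB_congr fun m _ => ?_]
  rw [h2 (pi i m) (lt_of_le_of_lt (pi_le i m) hi)]

theorem tr_fix {s s' : List ℕ} (h : s'.length = s.length)
    (h1 : ∀ i < s.length, s.getD i 0 ≠ 0 → s'.getD i 0 = s.getD i 0)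
    (h2 : ∀ i < s.length, s.getD i 0 = 0 → s'.getD i 0 = 0 ∨ s.length < s'.getD i 0) :
    tr s' = tr s := by
  unfold tr
  rw [h]
  apply List.map_congr_left
  intro i hi
  rw [List.mem_range] at hi
  rw [trB_congr fun m _ => ?_]
  have hp := lt_of_le_of_lt (pi_le i m) hi
  have hl := length_nd i
  by_cases h3 : s.getD (pi i m) 0 = 0
  · refine iff_of_true ?_ (Or.inl h3)
    rcases h2 _ hp h3 with h4 | h4
    · exact Or.inl h4
    · exact Or.inr (by omega)
  · rw [h1 _ hp h3]

theorem names_trC (x : ℕ → ℕ) : Names (trC x) (trS x) := by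
  classical
  refine ⟨?_, fun σ => ?_⟩
  · intro σ τ h hτ m hm
    have hle := h.length_le
    have h1 : σ.take m = τ.take m := by
      obtain ⟨t, rfl⟩ := h
      rw [List.take_append_of_le_length hm]
    rw [h1]
    rcases hτ m (by omega) with h2 | h2
    · exact Or.inl h2
    · exact Or.inr (by omega)
  · by_cases h : σ ∈ trS x
    · refine Or.inl ⟨h, ?_⟩
      rw [trC, nd, Denumerable.ofNat_encode, if_pos h]
    · refine Or.inr ⟨h, ?_⟩
      rw [trC, nd, Denumerable.ofNat_encode, if_neg h]

theorem body_trS {T : Set (List ℕ)} {x : ℕ → ℕ} (hx : ∀ i, x i ≠ 0 ↔ i ∈ UU T) :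
    body (trS x) = body (kernel T) := by
  have hx' : ∀ σ, x (encode σ) = 0 ↔ σ ∈ kernel T := by
    intro σ
    have h1 := hx (encode σ)
    unfold UU at h1
    simp only [Set.mem_ofPred_eq, nd, Denumerable.ofNat_encode] at h1
    rw [← not_iff_not]
    exact h1
  apply Set.Subset.antisymm
  · intro y hy m
    rw [← hx']
    have h1 := hy (max m (x (encode (pre y m)))) m (by simp)
    rw [pre_length, pre_take y (le_max_left _ _)] at h1
    rcases h1 with h1 | h1
    · exact h1
    · exact absurd h1 (by simp)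
  · intro y hy n m hm
    rw [pre_length] at hm
    rw [pre_take y hm]
    exact Or.inl ((hx' _).2 (hy m))

/-! ### Events -/

/-- bounded existential quantifier -/
def exB (f : ℕ → Bool) (n : ℕ) : Bool := !allB (fun i => !f i) n

theorem exB_iff {f : ℕ → Bool} {n : ℕ} : exB f n = true ↔ ∃ i < n, f i = true := by
  unfold exB
  rw [Bool.not_eq_true', ← Bool.not_eq_true, allB_iff]
  push Not
  simp

variable (Θ : List ℕ → List ℕ)

/-- the value list of the second functional -/
def LL (a s : List ℕ) : List ℕ := Θ (joinL a (tr s))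

/-- The events: event `0` says that the first new entry is nonzero; event `⟨n, m⟩ + 1` says that
the sequence changes its `n`-th coordinate after the index `m`. -/
def evt (t : ℕ) (s a s' : List ℕ) : Bool :=
  bif decide (t = 0) then decide (s.length < s'.length) && !decide (s'.getD s.length 0 = 0) else
    (decide (Nat.pair (t - 1).unpair.2 (t - 1).unpair.1 < (LL Θ a s').length) &&
      exB (fun k => decide ((t - 1).unpair.2 < k) &&
        decide (Nat.pair k (t - 1).unpair.1 < (LL Θ a s').length) &&
        !decide ((LL Θ a s').getD (Nat.pair k (t - 1).unpair.1) 0 =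
          (LL Θ a s').getD (Nat.pair (t - 1).unpair.2 (t - 1).unpair.1) 0)) (LL Θ a s').length)

variable {Θ}

theorem evt_zero (s a s' : List ℕ) : evt Θ 0 s a s' = true ↔
    s.length < s'.length ∧ s'.getD s.length 0 ≠ 0 := by
  unfold evt
  simp

theorem evt_succ (n m : ℕ) (s a s' : List ℕ) : evt Θ (Nat.pair n m + 1) s a s' = true ↔
    ∃ k, m < k ∧ Nat.pair m n < (LL Θ a s').length ∧ Nat.pair k n < (LL Θ a s').length ∧
      (LL Θ a s').getD (Nat.pair k n) 0 ≠ (LL Θ a s').getD (Nat.pair m n) 0 := by
  unfold evt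
  simp only [Nat.add_eq_zero_iff, one_ne_zero, and_false, decide_false, cond_false,
    Nat.add_sub_cancel, Nat.unpair_pair, Bool.and_eq_true, decide_eq_true_eq, exB_iff,
    Bool.not_eq_true', decide_eq_false_iff_not]
  constructor
  · rintro ⟨h1, k, -, ⟨h2, h3⟩, h4⟩
    exact ⟨k, h2, h1, h3, h4⟩
  · rintro ⟨k, h1, h2, h3, h4⟩
    exact ⟨h2, k, lt_of_le_of_lt (Nat.left_le_pair _ _) h3, ⟨h1, h3⟩, h4⟩

theorem evt_ok (hΘ : Mono Θ) : EvOK (evt Θ) where
  mono := by
    intro t s a a' s' s'' ha hs h
    cases t with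
    | zero =>
      rw [evt_zero] at h ⊢
      obtain ⟨h1, h2⟩ := prefix_iff_getD.1 hs
      refine ⟨by omega, ?_⟩
      rw [← h2 _ h.1]
      exact h.2
    | succ t =>
      obtain ⟨n, m, rfl⟩ : ∃ n m, t = Nat.pair n m := ⟨t.unpair.1, t.unpair.2, by simp⟩
      rw [evt_succ] at h ⊢
      obtain ⟨k, h1, h2, h3, h4⟩ := h
      have hL : LL Θ a s' <+: LL Θ a' s'' := hΘ _ _ (joinL_prefix ha (tr_mono hs))
      obtain ⟨h5, h6⟩ := prefix_iff_getD.1 hL
      refine ⟨k, h1, by omega, by omega, ?_⟩
      rw [← h6 _ h2, ← h6 _ h3]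
      exact h4
  fix := by
    intro t s a s' s'' h h1 h2 he
    cases t with
    | zero =>
      rw [evt_zero] at he ⊢
      refine ⟨by omega, ?_⟩
      rw [h1 _ he.1 he.2]
      exact he.2
    | succ t =>
      obtain ⟨n, m, rfl⟩ : ∃ n m, t = Nat.pair n m := ⟨t.unpair.1, t.unpair.2, by simp⟩
      rw [evt_succ] at he ⊢
      have hL : LL Θ a s'' = LL Θ a s' := by
        unfold LL
        rw [tr_fix h h1 h2]
      rw [hL]
      exact he
  zero := evt_zero

end Pool.Agent.Q205.PKL
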