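import Pool.Agent.Q205.PKL.Cpt

/-!
`lim * PK` for closed sets is reducible to `PK`.
-/

set_option autoImplicit false

namespace Pool.Agent.Q205.PKL

open Q204.WD Encodable Pool.Agent.Helper446.RE

theorem Names.unique {p : ℕ → ℕ} {T T' : Set (List ℕ)} (h : Names p T) (h' : Names p T') :
    T = T' := by
  ext σ
  rcases h.2 σ with h1 | h1 <;> rcases h'.2 σ with h2 | h2
  · exact iff_of_true h1.1 h2.1
  · exact absurd (h1.2.symm.trans h2.2) one_ne_zero
  · exact absurd (h2.2.symm.trans h1.2) one_ne_zero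
  · exact iff_of_false h1.1 h2.1

theorem exists_name {T : Set (List ℕ)} (h : IsTree T) : ∃ p, Names p T := by
  classical
  refine ⟨fun i => if nd i ∈ T then 1 else 0, h, fun σ => ?_⟩
  by_cases h1 : σ ∈ T
  · exact Or.inl ⟨h1, by simp [nd, h1]⟩
  · exact Or.inr ⟨h1, by simp [nd, h1]⟩

theorem star_le (f₀ g₀ : Problem) (hf : WRed f₀ Lim) (hg : WRed g₀ PKN) :
    WRed (comp f₀ g₀) PK := by
  obtain ⟨φ1, ψ1, ⟨hφ1c, hφ1⟩, ⟨hψ1c, hψ1⟩, hr1⟩ := hg
  obtain ⟨φ2, ψ2, ⟨hφ2c, hφ2⟩, ⟨hψ2c, hψ2⟩, hr2⟩ := hf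
  let Θ : List ℕ → List ℕ := fun w => φ2 (ψ1 w)
  have hΘ : Mono Θ := fun l l' h => hφ2 _ _ (hψ1 _ _ h)
  have hΘc : Computable Θ := hφ2c.comp hψ1c
  have hev := evt_ok hΘ
  let D : List ℕ → List ℕ := mach (gD Θ)
  have hD : Mono D := mono_mach _
  have hDc : Computable D := comp_mach (c_gD hΘc)
  refine ⟨mach (gW (RR (evt Θ) φ1)),
    fun w => ψ2 (joinL (ψ1 (joinL (evens w) (evens (D w)))) (odds (D w))),
    ⟨comp_gW _ (c_RR (c_evt hΘc) hφ1c), mono_mach _⟩, ⟨?_, ?_⟩, ?_⟩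
  · exact hψ2c.comp (c_joinL (hψ1c.comp (c_joinL (c_evens Computable.id) (c_evens hDc)))
      (c_odds hDc))
  · intro l l' h
    exact hψ2 _ _ (joinL_prefix (hψ1 _ _ (joinL_prefix (mono_evens _ _ h)
      (mono_evens _ _ (hD _ _ h)))) (mono_odds _ _ (hD _ _ h)))
  · rintro p ⟨r0, hpg, hall, -⟩
    obtain ⟨u, hu, hudom, hsol⟩ := hr1 p hpg
    obtain ⟨s0, T, S0, hT, -, -⟩ := hudom
    refine ⟨charW (RR (evt Θ) φ1) p, (conv_gW _ p).eval, ?_, ?_⟩
    · obtain ⟨s, hs⟩ := exists_name (kernel_tree (WT (RR (evt Θ) φ1) p))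
      exact ⟨s, _, names_charW _ p, hs⟩
    · rintro κ ⟨T', hT', hκ'⟩
      obtain rfl := hT'.unique (names_charW _ p)
      have hκ : Answers (evt Θ) (UU T) p κ := by
        have hq : ∀ t s, κ (qi t s) = 0 ↔ X (evt Θ) (UU T) p t s := by
          intro t s
          rw [← not_iff_not, ← RR_iff hT (hu.conv hφ1) t s, ← ask]
          unfold qi
          rcases hκ'.2 [Nat.pair t (encode s)] with h | h
          · rw [h.2]
            exact iff_of_true one_ne_zero h.1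
          · rw [h.2]
            exact iff_of_false (fun h' => h' rfl) h.1
        exact ⟨hq, fun i => (hq 0 _).trans (X_zero hev i)⟩
      have hq1 : trC (gs (evt Θ) (UU T) p) ∈ PKN u := by
        refine ⟨T, trS (gs (evt Θ) (UU T) p), hT, names_trC _, ?_⟩
        rw [body_trS fun i => gs_ne_zero hev i, body_kernel]
      obtain ⟨s1, hs1, hs1g⟩ := hsol _ hq1
      obtain ⟨u2, hu2, ⟨v, hv⟩, hsol2⟩ := hr2 s1 (hall s1 hs1g)
      obtain ⟨r, hr, hrf⟩ := hsol2 v hv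
      have hE : Eval Θ (join p (trC (gs (evt Θ) (UU T) p))) u2 :=
        ((hs1.conv hψ1).comp hφ2 hu2).eval
      have hdec := conv_dec hΘ hκ hE hv
      have c0 := conv_pre (join p κ)
      refine ⟨r, ?_, hpg, hall, s1, hs1g, hrf⟩
      exact ((((c0.evens).join hdec.evens).comp hψ1 hs1).join hdec.odds |>.comp hψ2 hr).eval

end Pool.Agent.Q205.PKL
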