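import Pool.Agent.Q205.PKL.Main

/-!
The converse: `PK` is reducible to a composition of a problem below `lim` with `PK` for closed sets.
-/

set_option autoImplicit false

namespace Pool.Agent.Q205.PKL

open Q204.WD Encodable Pool.Agent.Helper446.RE Filter

/-- the number of leading zeros -/
def lz (v : List ℕ) : ℕ := findN (fun k => !decide (v.getD k 0 = 0)) v.length

theorem lz_replicate (m : ℕ) : lz (List.replicate m 0) = m := by
  have h1 := findN_spec (fun k => !decide ((List.replicate m 0).getD k 0 = 0))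
    (List.replicate m 0).length
  have h2 := findN_le (fun k => !decide ((List.replicate m 0).getD k 0 = 0))
    (List.replicate m 0).length
  unfold lz
  rw [List.length_replicate] at *
  by_contra hne
  have h3 := h1.1 (lt_of_le_of_ne h2 hne)
  simp only [Bool.not_eq_true', decide_eq_false_iff_not] at h3
  apply h3
  rw [List.getD_replicate _ (lt_of_le_of_ne h2 hne)]

theorem lz_append (m : ℕ) (τ : List ℕ) : lz (List.replicate m 0 ++ 1 :: τ) = m := by
  refine findN_eq (by simp) ?_ fun i hi => ?_
  · simp [List.getD]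
  · rw [List.getD_append _ _ _ _ (by simpa using hi), List.getD_replicate _ hi]
    rfl

theorem eq_replicate_of_lz {v : List ℕ} (h : lz v = v.length) :
    v = List.replicate v.length 0 := by
  have h1 := (findN_spec (fun k => !decide (v.getD k 0 = 0)) v.length).2
  rw [List.eq_replicate_iff]
  refine ⟨rfl, fun b hb => ?_⟩
  obtain ⟨i, hi, rfl⟩ := List.getElem_of_mem hb
  have h2 := h1 i (by
    have : findN (fun k => !decide (v.getD k 0 = 0)) v.length = v.length := h
    omega)
  simp only [Bool.not_eq_false', decide_eq_true_eq] at h2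
  rwa [List.getD_eq_getElem _ _ hi] at h2

theorem eq_append_of_lz {v : List ℕ} (h : lz v < v.length) :
    v = List.replicate (lz v) 0 ++ v.getD (lz v) 0 :: v.drop (lz v + 1) := by
  have h1 := (findN_spec (fun k => !decide (v.getD k 0 = 0)) v.length).2
  have h2 : v.take (lz v) = List.replicate (lz v) 0 := by
    rw [List.eq_replicate_iff]
    refine ⟨by simp [h.le], fun b hb => ?_⟩
    obtain ⟨i, hi, rfl⟩ := List.getElem_of_mem hb
    have hi' : i < lz v := by
      simp at hi
      omega
    have h3 := h1 i hi'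
    simp only [Bool.not_eq_false', decide_eq_true_eq] at h3
    rw [List.getElem_take]
    rwa [List.getD_eq_getElem _ _ (by omega)] at h3
  conv_lhs => rw [← List.take_append_drop (lz v) v]
  rw [h2, List.getD_eq_getElem _ _ h, List.drop_eq_getElem_cons h]

theorem append_inj' {m m' : ℕ} {τ τ' : List ℕ}
    (h : List.replicate m 0 ++ 1 :: τ = List.replicate m' 0 ++ 1 :: τ') : m = m' ∧ τ = τ' := by
  have h1 : m = m' := by rw [← lz_append m τ, h, lz_append]
  subst h1
  have h2 := List.append_cancel_left h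
  exact ⟨rfl, List.tail_eq_of_cons_eq h2⟩

/-- the shape of the sequences -/
def Sh (T : Set (List ℕ)) (i : ℕ) (v : List ℕ) : Prop :=
  v = List.replicate v.length 0 ∨ ∃ m τ, v = List.replicate m 0 ++ 1 :: τ ∧ nd i ++ τ ∈ T

theorem Sh.of_prefix {T : Set (List ℕ)} (hT : IsTree T) {i : ℕ} {v w : List ℕ} (h : v <+: w)
    (hw : Sh T i w) : Sh T i v := by
  have key : ∀ m, v <+: List.replicate m 0 → v = List.replicate v.length 0 := by
    intro m hm
    rw [List.eq_replicate_iff]
    exact ⟨rfl, fun b hb => List.eq_of_mem_replicate (hm.subset hb)⟩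
  rcases hw with hw | ⟨m, τ, rfl, hτ⟩
  · rw [hw] at h
    exact Or.inl (key _ h)
  · rcases List.prefix_or_prefix_of_prefix h (List.prefix_append _ _) with h1 | ⟨t, rfl⟩
    · exact Or.inl (key _ h1)
    · have h2 : t <+: 1 :: τ := (List.prefix_append_right_inj _).1 h
      cases t with
      | nil =>
        rw [List.append_nil]
        exact Or.inl (by simp)
      | cons b t =>
        obtain ⟨rfl, h3⟩ := List.cons_prefix_cons.1 h2
        exact Or.inr ⟨m, t, rfl, hT _ _ ((List.prefix_append_right_inj _).2 h3) hτ⟩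

/-- the auxiliary tree -/
def SS (T : Set (List ℕ)) : Set (List ℕ) := {l | l = [] ∨ ∃ i v, l = i :: v ∧ Sh T i v}

theorem tree_SS {T : Set (List ℕ)} (hT : IsTree T) : IsTree (SS T) := by
  intro σ τ h hτ
  cases σ with
  | nil => exact Or.inl rfl
  | cons i v =>
    rcases hτ with rfl | ⟨j, w, rfl, hw⟩
    · simp at h
    · obtain ⟨rfl, h1⟩ := List.cons_prefix_cons.1 h
      exact Or.inr ⟨i, v, rfl, hw.of_prefix hT h1⟩

theorem ker_SS1 {T : Set (List ℕ)} {i : ℕ} (hi : nd i ∈ kernel T) (m : ℕ) :
    i :: List.replicate m 0 ∈ kernel (SS T) := by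
  refine ⟨{l | l = [] ∨ ∃ v, l = i :: v ∧ Sh (kernel T) i v}, ?_, ?_, ?_,
    Or.inr ⟨_, rfl, Or.inl (by simp)⟩⟩
  · intro σ τ h hτ
    cases σ with
    | nil => exact Or.inl rfl
    | cons j v =>
      rcases hτ with rfl | ⟨w, rfl, hw⟩
      · simp at h
      · obtain ⟨rfl, h1⟩ := List.cons_prefix_cons.1 h
        exact Or.inr ⟨v, rfl, hw.of_prefix (kernel_tree T) h1⟩
  · have key : ∀ m σ, σ <+: i :: List.replicate m 0 →
        ∃ τ ∈ {l | l = [] ∨ ∃ v, l = i :: v ∧ Sh (kernel T) i v},
        ∃ τ' ∈ {l | l = [] ∨ ∃ v, l = i :: v ∧ Sh (kernel T) i v},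
        σ <+: τ ∧ σ <+: τ' ∧ ¬ τ <+: τ' ∧ ¬ τ' <+: τ := by
      intro m σ hσ
      refine ⟨i :: List.replicate (m + 1) 0, Or.inr ⟨_, rfl, Or.inl (by simp)⟩,
        i :: (List.replicate m 0 ++ [1]), Or.inr ⟨_, rfl, Or.inr ⟨m, [], rfl, by simpa using hi⟩⟩,
        hσ.trans ?_, hσ.trans ?_, ?_, ?_⟩
      · exact (List.prefix_cons_inj i).2 (by
          rw [List.replicate_succ']
          exact List.prefix_append _ _)
      · exact (List.prefix_cons_inj i).2 (List.prefix_append _ _)
      · intro h
        have h1 := h.eq_of_length (by simp)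
        rw [List.cons.injEq, List.replicate_succ', List.append_cancel_left_eq] at h1
        simp at h1
      · intro h
        have h1 := h.eq_of_length (by simp)
        rw [List.cons.injEq, List.replicate_succ', List.append_cancel_left_eq] at h1
        simp at h1
    rintro σ (rfl | ⟨v, rfl, hv | ⟨m, τ, rfl, hτ⟩⟩)
    · exact key 0 [] List.nil_prefix
    · rw [hv]
      exact key _ _ (List.prefix_refl _)
    · obtain ⟨ρ, hρ, ρ', hρ', ⟨t, rfl⟩, ⟨t', rfl⟩, h3, h4⟩ := kernel_perfect T _ hτ
      refine ⟨i :: (List.replicate m 0 ++ 1 :: (τ ++ t)), Or.inr ⟨_, rfl, Or.inr ⟨m, _, rfl, by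
          rwa [← List.append_assoc]⟩⟩, i :: (List.replicate m 0 ++ 1 :: (τ ++ t')),
        Or.inr ⟨_, rfl, Or.inr ⟨m, _, rfl, by rwa [← List.append_assoc]⟩⟩, ?_, ?_, ?_, ?_⟩
      · exact ⟨t, by simp⟩
      · exact ⟨t', by simp⟩
      · intro h
        apply h3
        rw [List.prefix_cons_inj, List.prefix_append_right_inj, List.prefix_cons_inj,
          List.prefix_append_right_inj] at h
        rwa [List.prefix_append_right_inj]
      · intro h
        apply h4
        rw [List.prefix_cons_inj, List.prefix_append_right_inj, List.prefix_cons_inj,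
          List.prefix_append_right_inj] at h
        rwa [List.prefix_append_right_inj]
  · rintro σ (rfl | ⟨v, rfl, hv | ⟨m, τ, rfl, hτ⟩⟩)
    · exact Or.inl rfl
    · exact Or.inr ⟨i, v, rfl, Or.inl hv⟩
    · exact Or.inr ⟨i, _, rfl, Or.inr ⟨m, τ, rfl, kernel_sub T hτ⟩⟩

theorem ker_SS2 {T : Set (List ℕ)} (hT : IsTree T) {i : ℕ} (hi : [i] ∈ kernel (SS T)) :
    nd i ∈ kernel T := by
  obtain ⟨ρ, hρ, ρ', hρ', h1, h2, h3, h4⟩ := kernel_perfect _ _ hi
  -- one of the extensions is not constant zero
  have key : ∃ m τ, i :: (List.replicate m 0 ++ 1 :: τ) ∈ kernel (SS T) := by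
    have g : ∀ ρ, ρ ∈ kernel (SS T) → [i] <+: ρ →
        (∃ m, ρ = i :: List.replicate m 0) ∨
          ∃ m τ, i :: (List.replicate m 0 ++ 1 :: τ) ∈ kernel (SS T) := by
      intro ρ hρ h
      rcases kernel_sub _ hρ with rfl | ⟨j, v, rfl, hv⟩
      · simp at h
      · obtain ⟨rfl, -⟩ := List.cons_prefix_cons.1 h
        rcases hv with hv | ⟨m, τ, rfl, hτ⟩
        · exact Or.inl ⟨v.length, by rw [← hv]⟩
        · exact Or.inr ⟨m, τ, hρ⟩
    rcases g ρ hρ h1 with ⟨m, rfl⟩ | h5
    · rcases g ρ' hρ' h2 with ⟨m', rfl⟩ | h5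
      · have : ∀ a b : ℕ, a ≤ b → i :: List.replicate a 0 <+: i :: List.replicate b 0 := by
          intro a b hab
          rw [List.prefix_cons_inj]
          exact ⟨List.replicate (b - a) 0, by rw [← List.replicate_add]; congr 1; omega⟩
        rcases le_total m m' with h | h
        · exact absurd (this _ _ h) h3
        · exact absurd (this _ _ h) h4
      · exact h5
    · exact h5
  obtain ⟨m, τ, hτ⟩ := key
  refine ⟨{σ | ∃ τ1, σ <+: nd i ++ τ1 ∧ i :: (List.replicate m 0 ++ 1 :: τ1) ∈ kernel (SS T)},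
    ?_, ?_, ?_, ⟨τ, List.prefix_append _ _, hτ⟩⟩
  · rintro σ σ' h ⟨τ1, h5, h6⟩
    exact ⟨τ1, h.trans h5, h6⟩
  · rintro σ ⟨τ1, h5, h6⟩
    obtain ⟨ρ, hρ, ρ', hρ', ⟨t, rfl⟩, ⟨t', rfl⟩, g3, g4⟩ := kernel_perfect _ _ h6
    have e : ∀ t, i :: (List.replicate m 0 ++ 1 :: τ1) ++ t =
        i :: (List.replicate m 0 ++ 1 :: (τ1 ++ t)) := fun t => by simp
    rw [e t] at hρ g3 g4
    rw [e t'] at hρ' g3 g4
    refine ⟨nd i ++ (τ1 ++ t), ⟨_, List.prefix_refl _, hρ⟩, nd i ++ (τ1 ++ t'),
      ⟨_, List.prefix_refl _, hρ'⟩, h5.trans ?_, h5.trans ?_, ?_, ?_⟩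
    · rw [List.prefix_append_right_inj]
      exact List.prefix_append _ _
    · rw [List.prefix_append_right_inj]
      exact List.prefix_append _ _
    · intro h
      apply g3
      rw [List.prefix_append_right_inj] at h
      rwa [List.prefix_cons_inj, List.prefix_append_right_inj, List.prefix_cons_inj]
    · intro h
      apply g4
      rw [List.prefix_append_right_inj] at h
      rwa [List.prefix_cons_inj, List.prefix_append_right_inj, List.prefix_cons_inj]
  · rintro σ ⟨τ1, h5, h6⟩
    rcases kernel_sub _ h6 with h7 | ⟨j, v, h7, hv⟩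
    · simp at h7
    · rw [List.cons.injEq] at h7
      obtain ⟨rfl, rfl⟩ := h7
      rcases hv with hv | ⟨m', τ', hv, hτ'⟩
      · have h8 : 1 ∈ List.replicate (List.replicate m 0 ++ 1 :: τ1).length 0 := by
          rw [← hv]
          simp
        exact absurd (List.eq_of_mem_replicate h8) one_ne_zero
      · obtain ⟨-, rfl⟩ := append_inj' hv
        exact hT _ _ h5 hτ'

/-- the path `i 0 0 0 ...` -/
def pth (i n : ℕ) : ℕ := if n = 0 then i else 0

theorem pre_pth (i n : ℕ) : pre (pth i) (n + 1) = i :: List.replicate n 0 := by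
  induction n with
  | zero => rfl
  | succ n ih =>
    rw [pre_succ, ih, List.replicate_succ', List.cons_append]
    congr 2

theorem mem_kernel_iff {T S : Set (List ℕ)} (hT : IsTree T) (hS : IsTree S)
    (h : body S = PKer (body (SS T))) (i : ℕ) :
    (∀ m, i :: List.replicate m 0 ∈ S) ↔ nd i ∈ kernel T := by
  rw [← body_kernel] at h
  have h1 : ∀ {R : Set (List ℕ)}, IsTree R →
      ((∀ m, i :: List.replicate m 0 ∈ R) ↔ pth i ∈ body R) := by
    intro R hR
    constructor
    · intro hm n
      cases n with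
      | zero => exact hR _ _ List.nil_prefix (hm 0)
      | succ n =>
        rw [pre_pth]
        exact hm n
    · intro hb m
      rw [← pre_pth]
      exact hb (m + 1)
  rw [h1 hS, h, ← h1 (kernel_tree _)]
  constructor
  · exact fun h2 => ker_SS2 hT (h2 0)
  · exact fun h2 m => ker_SS1 h2 m

/-- The problem: decide, for each `i`, whether the path `i 0 0 0 ...` is in the body of the tree. -/
def F0 : Problem := fun q => {r | ∃ S, Names q S ∧
  ∀ i, (r i = 1 ∧ ∀ m, i :: List.replicate m 0 ∈ S) ∨ (r i = 0 ∧ ¬ ∀ m, i :: List.replicate m 0 ∈ S)}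

/-- codes of initial segments of the path -/
def cp (i m : ℕ) : ℕ := encode (i :: List.replicate m 0)

/-- the search for the sequence of approximations -/
def gF (w : List ℕ) (j : ℕ) : Option ℕ :=
  bif allB (fun m => decide (cp j.unpair.2 m < w.length)) (j.unpair.1 + 1) then
    some (bif allB (fun m => decide (w.getD (cp j.unpair.2 m) 0 = 1)) (j.unpair.1 + 1) then 1 else 0)
  else none

theorem c_cp {α : Type*} [Primcodable α] {f g : α → ℕ} (hf : Computable f) (hg : Computable g) :
    Computable fun a => cp (f a) (g a) := by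
  unfold cp
  exact cencode (ccons hf (c_replicate 0 hg))

theorem c_gF : Computable fun x : List ℕ × ℕ => gF x.1 x.2 := by
  have h1 : Computable fun x : (List ℕ × ℕ) × ℕ => cp x.1.2.unpair.2 x.2 :=
    c_cp (by fun_prop) (by fun_prop)
  have h2 : Computable fun x : (List ℕ × ℕ) × ℕ => x.1.1 := by fun_prop
  have h3 : Computable fun x : List ℕ × ℕ => x.2.unpair.1 + 1 := by fun_prop
  have h4 : Computable fun x : List ℕ × ℕ =>
      allB (fun m => decide (cp x.2.unpair.2 m < x.1.length)) (x.2.unpair.1 + 1) :=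
    c_allB (f := fun (x : List ℕ × ℕ) m => decide (cp x.2.unpair.2 m < x.1.length))
      (c_lt h1 (clength h2)) h3
  have h5 : Computable fun x : List ℕ × ℕ =>
      allB (fun m => decide (x.1.getD (cp x.2.unpair.2 m) 0 = 1)) (x.2.unpair.1 + 1) :=
    c_allB (f := fun (x : List ℕ × ℕ) m => decide (x.1.getD (cp x.2.unpair.2 m) 0 = 1))
      (c_eq1 (c_gd0 h2 h1)) h3
  unfold gF
  exact ccond h4 (csome (ccond h5 (Computable.const 1) (Computable.const 0))) (Computable.const none)

open Classical in
/-- the sequence of approximations -/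
noncomputable def uF (S : Set (List ℕ)) (j : ℕ) : ℕ :=
  if ∀ m ≤ j.unpair.1, j.unpair.2 :: List.replicate m 0 ∈ S then 1 else 0

theorem F0_le : WRed F0 Lim := by
  classical
  refine ⟨mach gF, odds, ⟨comp_mach c_gF, mono_mach _⟩, ⟨primrec_odds.to_comp, mono_odds⟩, ?_⟩
  rintro q ⟨r, S, hS, hr⟩
  have hmem : ∀ σ, q (encode σ) = 1 ↔ σ ∈ S := by
    intro σ
    rcases hS.2 σ with h | h
    · exact iff_of_true h.2 h.1
    · exact iff_of_false (by rw [h.2]; exact zero_ne_one) h.1
  have hconv : Conv (fun n => mach gF (pre q n)) (uF S) := by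
    refine conv_mach (fun j => ?_) (fun j N v hv => ?_)
    · obtain ⟨B, hB⟩ : ∃ B, ∀ m < j.unpair.1 + 1, cp j.unpair.2 m < B := by
        obtain ⟨B, hB⟩ := ((Finset.range (j.unpair.1 + 1)).image (cp j.unpair.2)).exists_le
        exact ⟨B + 1, fun i hi => Nat.lt_succ_of_le
          (hB _ (Finset.mem_image_of_mem _ (Finset.mem_range.2 hi)))⟩
      refine ⟨B, ?_⟩
      unfold gF
      have h1 : allB (fun m => decide (cp j.unpair.2 m < (pre q B).length)) (j.unpair.1 + 1) =
          true := by
        rw [allB_iff]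
        intro m hm
        rw [pre_length, decide_eq_true_iff]
        exact hB m hm
      rw [h1]
      rfl
    · unfold gF at hv
      cases hb : allB (fun m => decide (cp j.unpair.2 m < (pre q N).length)) (j.unpair.1 + 1)
      · rw [hb, cond_false] at hv
        exact absurd hv (by simp)
      · rw [hb, cond_true, Option.some.injEq] at hv
        rw [allB_iff] at hb
        have h2 : allB (fun m => decide ((pre q N).getD (cp j.unpair.2 m) 0 = 1))
            (j.unpair.1 + 1) = true ↔ ∀ m ≤ j.unpair.1, j.unpair.2 :: List.replicate m 0 ∈ S := by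
          rw [allB_iff]
          constructor
          · intro h m hm
            have h3 := h m (by omega)
            have h4 := hb m (by omega)
            rw [pre_length, decide_eq_true_iff] at h4
            rw [decide_eq_true_iff, getD_pre1, if_pos h4] at h3
            exact (hmem _).1 h3
          · intro h m hm
            have h4 := hb m hm
            rw [pre_length, decide_eq_true_iff] at h4
            rw [decide_eq_true_iff, getD_pre1, if_pos h4]
            exact (hmem _).2 (h m (by omega))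
        rw [← hv, uF]
        by_cases h5 : ∀ m ≤ j.unpair.1, j.unpair.2 :: List.replicate m 0 ∈ S
        · rw [if_pos h5, h2.2 h5, cond_true]
        · rw [if_neg h5, Bool.eq_false_iff.2 fun h => h5 (h2.1 h), cond_false]
  have hlim : ∀ i, ∀ᶠ k in atTop, uF S (Nat.pair k i) =
      if ∀ m, i :: List.replicate m 0 ∈ S then 1 else 0 := by
    intro i
    by_cases h : ∀ m, i :: List.replicate m 0 ∈ S
    · refine Eventually.of_forall fun k => ?_
      rw [uF, Nat.unpair_pair, if_pos h, if_pos fun m _ => h m]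
    · have h' := h
      push Not at h'
      obtain ⟨m, hm⟩ := h'
      filter_upwards [eventually_ge_atTop m] with k hk
      rw [uF, Nat.unpair_pair, if_neg h, if_neg fun h2 => hm (h2 m hk)]
  refine ⟨uF S, hconv.eval, ⟨_, hlim⟩, fun s hs => ⟨s, ((conv_pre (join q s)).odds).eval, S, hS,
    fun i => ?_⟩⟩
  obtain ⟨k, h1, h2⟩ := ((hlim i).and (hs i)).exists
  rw [h1] at h2
  by_cases h : ∀ m, i :: List.replicate m 0 ∈ S
  · rw [if_pos h] at h2
    exact Or.inl ⟨h2.symm, h⟩
  · rw [if_neg h] at h2
    exact Or.inr ⟨h2.symm, h⟩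

/-- code of the node read in the auxiliary tree -/
def cS (l : List ℕ) : ℕ := encode (nd (l.getD 0 0) ++ l.tail.drop (lz l.tail + 1))

/-- the search for the auxiliary tree -/
def gS (w : List ℕ) (j : ℕ) : Option ℕ :=
  bif decide ((nd j).length = 0) || decide (lz (nd j).tail = (nd j).tail.length) then some 1 else
    bif decide ((nd j).tail.getD (lz (nd j).tail) 0 = 1) then
      (bif decide (cS (nd j) < w.length) then some (w.getD (cS (nd j)) 0) else none)
    else some 0

theorem c_gS : Computable fun x : List ℕ × ℕ => gS x.1 x.2 := by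
  have h1 : Computable fun x : List ℕ × ℕ => nd x.2 := by fun_prop
  have h2 : Computable fun x : List ℕ × ℕ => (nd x.2).tail := Primrec.list_tail.to_comp.comp h1
  have h3 : Computable fun x : List ℕ × ℕ => lz (nd x.2).tail := by
    unfold lz
    have h4 : Computable fun x : (List ℕ × ℕ) × ℕ => (nd x.1.2).tail :=
      Primrec.list_tail.to_comp.comp (by fun_prop)
    exact c_findN (f := fun (x : List ℕ × ℕ) k => !decide ((nd x.2).tail.getD k 0 = 0))
      (cnot (c_eq0 (c_gd0 h4 Computable.snd))) (clength h2)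
  have h5 : Computable fun x : List ℕ × ℕ => cS (nd x.2) := by
    unfold cS
    exact cencode (cappend (c_nd (c_gd0 h1 (Computable.const 0)))
      (Primrec.list_drop.to_comp.comp (cadd h3 (Computable.const 1)) h2))
  have h6 : Computable fun x : List ℕ × ℕ => x.1 := Computable.fst
  unfold gS
  exact ccond (cor (c_eq0 (clength h1)) (c_eq h3 (clength h2))) (Computable.const _)
    (ccond (c_eq1 (c_gd0 h2 h3)) (ccond (c_lt h5 (clength h6)) (csome (c_gd0 h6 h5))
      (Computable.const none)) (Computable.const _))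

open Classical in
/-- the characteristic function of the auxiliary tree -/
noncomputable def uS (T : Set (List ℕ)) (j : ℕ) : ℕ := if nd j ∈ SS T then 1 else 0

theorem names_uS {T : Set (List ℕ)} (hT : IsTree T) : Names (uS T) (SS T) := by
  classical
  refine ⟨tree_SS hT, fun σ => ?_⟩
  by_cases h1 : σ ∈ SS T
  · exact Or.inl ⟨h1, by simp [uS, nd, h1]⟩
  · exact Or.inr ⟨h1, by simp [uS, nd, h1]⟩

theorem mem_SS_iff {T : Set (List ℕ)} (l : List ℕ) (hl : l ≠ []) (h : lz l.tail ≠ l.tail.length) :
    l ∈ SS T ↔ l.tail.getD (lz l.tail) 0 = 1 ∧ nd (l.getD 0 0) ++ l.tail.drop (lz l.tail + 1) ∈ T := by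
  obtain ⟨i, v, rfl⟩ := List.exists_cons_of_ne_nil hl
  have h1 : lz v < v.length := lt_of_le_of_ne (findN_le _ _) h
  constructor
  · rintro (h2 | ⟨j, w, h2, h3⟩)
    · exact absurd h2 hl
    · rw [List.cons.injEq] at h2
      obtain ⟨rfl, rfl⟩ := h2
      rcases h3 with h3 | ⟨m, τ, rfl, hτ⟩
      · exfalso
        apply h
        show lz v = v.length
        rw [h3, lz_replicate, List.length_replicate]
      · refine ⟨?_, ?_⟩
        · show (List.replicate m 0 ++ 1 :: τ).getD (lz (List.replicate m 0 ++ 1 :: τ)) 0 = 1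
          rw [lz_append]
          simp [List.getD]
        · show nd i ++ (List.replicate m 0 ++ 1 :: τ).drop (lz (List.replicate m 0 ++ 1 :: τ) + 1) ∈ T
          rw [lz_append]
          have : (List.replicate m 0 ++ 1 :: τ).drop (m + 1) = τ := by
            rw [List.drop_append]
            simp
          rwa [this]
  · rintro ⟨h2, h3⟩
    refine Or.inr ⟨i, v, rfl, Or.inr ⟨lz v, v.drop (lz v + 1), ?_, h3⟩⟩
    have h4 := eq_append_of_lz h1
    have h5 : v.getD (lz v) 0 = 1 := h2
    rwa [h5] at h4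

theorem conv_gS {T : Set (List ℕ)} {p : ℕ → ℕ} (hp : Names p T) :
    Conv (fun n => mach gS (pre p n)) (uS T) := by
  classical
  refine conv_mach (fun j => ⟨cS (nd j) + 1, ?_⟩) (fun j N v hv => ?_)
  · unfold gS
    rw [pre_length, decide_eq_true (Nat.lt_succ_self (cS (nd j)))]
    cases decide ((nd j).length = 0) || decide (lz (nd j).tail = (nd j).tail.length) <;>
      cases decide ((nd j).tail.getD (lz (nd j).tail) 0 = 1) <;> rfl
  · unfold gS at hv
    by_cases h1 : (nd j).length = 0
    · rw [decide_eq_true h1, Bool.true_or, cond_true, Option.some.injEq] at hv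
      rw [← hv, uS, if_pos]
      exact Or.inl (List.length_eq_zero_iff.1 h1)
    · by_cases h2 : lz (nd j).tail = (nd j).tail.length
      · rw [decide_eq_true h2, Bool.or_true, cond_true, Option.some.injEq] at hv
        rw [← hv, uS, if_pos]
        obtain ⟨i, w, hw⟩ := List.exists_cons_of_ne_nil (fun h => h1 (by rw [h]; rfl) : nd j ≠ [])
        rw [hw] at h2 ⊢
        exact Or.inr ⟨i, w, rfl, Or.inl (eq_replicate_of_lz h2)⟩
      · rw [decide_eq_false h1, decide_eq_false h2, Bool.false_or, cond_false] at hv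
        have h3 := mem_SS_iff (T := T) (nd j) (fun h => h1 (by rw [h]; rfl)) h2
        by_cases h4 : (nd j).tail.getD (lz (nd j).tail) 0 = 1
        · rw [decide_eq_true h4, cond_true] at hv
          by_cases h5 : cS (nd j) < (pre p N).length
          · rw [decide_eq_true h5, cond_true, Option.some.injEq, getD_pre1,
              if_pos (by simpa using h5)] at hv
            rw [← hv, uS]
            rcases hp.2 (nd ((nd j).getD 0 0) ++ (nd j).tail.drop (lz (nd j).tail + 1)) with h6 | h6
            · rw [if_pos (h3.2 ⟨h4, h6.1⟩)]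
              exact h6.2
            · rw [if_neg fun h7 => h6.1 (h3.1 h7).2]
              exact h6.2
          · rw [decide_eq_false h5, cond_false] at hv
            exact absurd hv (by simp)
        · rw [decide_eq_false h4, cond_false, Option.some.injEq] at hv
          rw [← hv, uS, if_neg fun h7 => h4 (h3.1 h7).1]

theorem PK_le : WRed PK (comp F0 PKN) := by
  refine ⟨mach gS, odds, ⟨comp_mach c_gS, mono_mach _⟩, ⟨primrec_odds.to_comp, mono_odds⟩, ?_⟩
  rintro p ⟨s, T, hT, hs⟩
  have hF : ∀ {q : ℕ → ℕ} {S : Set (List ℕ)}, Names q S → ∃ r, r ∈ F0 q := by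
    classical
    intro q S hS
    refine ⟨fun i => if ∀ m, i :: List.replicate m 0 ∈ S then 1 else 0, S, hS, fun i => ?_⟩
    by_cases h : ∀ m, i :: List.replicate m 0 ∈ S
    · exact Or.inl ⟨if_pos h, h⟩
    · exact Or.inr ⟨if_neg h, h⟩
  obtain ⟨q0, hq0⟩ := exists_name (kernel_tree (SS T))
  have hq0' : q0 ∈ PKN (uS T) := ⟨_, _, names_uS hT.1, hq0, body_kernel _⟩
  have hall : ∀ q ∈ PKN (uS T), q ∈ dom F0 := by
    rintro q ⟨T', S, -, hS, -⟩
    exact hF hS
  obtain ⟨r0, hr0⟩ := hF hq0
  refine ⟨uS T, (conv_gS hT).eval, ⟨r0, ⟨q0, hq0'⟩, hall, q0, hq0', hr0⟩, ?_⟩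
  rintro r ⟨-, -, q, ⟨T', S, hT', hS, hb⟩, ⟨S', hS', hr⟩⟩
  obtain rfl := hT'.unique (names_uS hT.1)
  obtain rfl := hS'.unique hS
  refine ⟨r, ((conv_pre (join p r)).odds).eval, T, hT, kernel_tree T, fun σ => ?_⟩
  have h1 := mem_kernel_iff hT.1 hS.1 hb (encode σ)
  rw [nd, Denumerable.ofNat_encode] at h1
  rcases hr (encode σ) with h2 | h2
  · exact Or.inl ⟨h1.1 h2.2, h2.1⟩
  · exact Or.inr ⟨fun h => h2.2 (h1.2 h), h2.1⟩

end Pool.Agent.Q205.PKL
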