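import Pool.Agent.Q205.PKL.Chk

/-!
The generic sequence.
-/

set_option autoImplicit false

namespace Pool.Agent.Q205.PKL

open Q204.WD Encodable

/-- The properties of the events which are used. -/
structure EvOK (ev : ℕ → List ℕ → List ℕ → List ℕ → Bool) : Prop where
  mono : ∀ t s a a' s' s'', a <+: a' → s' <+: s'' → ev t s a s' = true → ev t s a' s'' = true
  fix : ∀ t s a s' s'', s''.length = s'.length →
    (∀ i < s'.length, s'.getD i 0 ≠ 0 → s''.getD i 0 = s'.getD i 0) →
    (∀ i < s'.length, s'.getD i 0 = 0 → s''.getD i 0 = 0 ∨ s'.length < s''.getD i 0) →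
    ev t s a s' = true → ev t s a s'' = true
  zero : ∀ s a s', ev 0 s a s' = true ↔ s.length < s'.length ∧ s'.getD s.length 0 ≠ 0

variable {ev : ℕ → List ℕ → List ℕ → List ℕ → Bool} {U : Set ℕ} {p : ℕ → ℕ}

/-- exactly the indices in `U` have nonzero entries -/
def Exact (U : Set ℕ) (s : List ℕ) : Prop := ∀ i < s.length, s.getD i 0 ≠ 0 ↔ i ∈ U

theorem exists_fix {s s' : List ℕ} (hs : Exact U s) (h : s <+: s')
    (hU : ∀ i, s.length ≤ i → i < s'.length → s'.getD i 0 ≠ 0 → i ∈ U) :
    ∃ s'', s <+: s'' ∧ s.length < s''.length ∧ Exact U s'' ∧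
      (EvOK ev → ∀ t r a, ev t r a s' = true → ev t r a s'' = true) := by
  classical
  let s1 := s' ++ [0]
  let s2 := (List.range s1.length).map fun i =>
    if s1.getD i 0 = 0 ∧ i ∈ U then s1.length + 1 else s1.getD i 0
  have hlen : s2.length = s1.length := by simp [s2]
  have hget : ∀ i < s1.length, s2.getD i 0 =
      if s1.getD i 0 = 0 ∧ i ∈ U then s1.length + 1 else s1.getD i 0 := by
    intro i hi
    rw [List.getD_eq_getElem _ _ (by omega)]
    simp [s2]
  have hs1 : s' <+: s1 := ⟨[0], rfl⟩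
  have hl1 : s1.length = s'.length + 1 := by simp [s1]
  have hle := h.length_le
  have hg1 : ∀ i < s'.length, s1.getD i 0 = s'.getD i 0 := fun i hi =>
    ((prefix_iff_getD.1 hs1).2 i hi).symm
  have hg2 : s1.getD s'.length 0 = 0 := by
    simp [s1, List.getD]
  have hg3 : ∀ i < s.length, s1.getD i 0 = s.getD i 0 := fun i hi =>
    ((prefix_iff_getD.1 (h.trans hs1)).2 i hi).symm
  refine ⟨s2, ?_, by omega, ?_, ?_⟩
  · refine prefix_iff_getD.2 ⟨by omega, fun i hi => ?_⟩
    rw [hget i (by omega), hg3 i hi]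
    split_ifs with h1
    · exact absurd h1.1 ((hs i hi).2 h1.2)
    · rfl
  · intro i hi
    rw [hget i (by omega)]
    split_ifs with h1
    · exact ⟨fun _ => h1.2, fun _ => by omega⟩
    · constructor
      · intro h2
        by_cases h3 : i < s'.length
        · rw [hg1 i h3] at h2
          by_cases h4 : i < s.length
          · rw [← hg1 i h3, hg3 i h4] at h2
            exact (hs i h4).1 h2
          · exact hU i (by omega) h3 h2
        · have h4 : i = s'.length := by omega
          rw [h4, hg2] at h2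
          exact absurd rfl h2
      · exact fun h2 h3 => h1 ⟨h3, h2⟩
  · intro hev t r a hr
    refine hev.fix t r a s1 s2 hlen (fun i hi h1 => ?_) (fun i hi h1 => ?_)
      (hev.mono t r a a s' s1 (List.prefix_refl _) hs1 hr)
    · rw [hget i hi, if_neg fun h2 => h1 h2.1]
    · rw [hget i hi]
      split_ifs with h2
      · exact Or.inr (by omega)
      · exact Or.inl h1

/-- the candidate `c` is good at stage `t` -/
def Good (ev : ℕ → List ℕ → List ℕ → List ℕ → Bool) (U : Set ℕ) (p : ℕ → ℕ) (t : ℕ)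
    (s : List ℕ) (c : ℕ) : Prop :=
  s <+: nd c.unpair.2 ∧ s.length < (nd c.unpair.2).length ∧ Exact U (nd c.unpair.2) ∧
    (X ev U p t s → ev t s (pre p c.unpair.1) (nd c.unpair.2) = true)

theorem exists_good (hev : EvOK ev) {s : List ℕ} (hs : Exact U s) (t : ℕ) :
    ∃ c, Good ev U p t s c := by
  by_cases hX : X ev U p t s
  · obtain ⟨n, s', h1, h2, h3⟩ := hX
    obtain ⟨s'', g1, g2, g3, g4⟩ := exists_fix (ev := ev) hs h1 h3
    refine ⟨Nat.pair n (encode s''), ?_⟩
    unfold Good
    rw [Nat.unpair_pair]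
    simp only [nd, Denumerable.ofNat_encode]
    exact ⟨g1, g2, g3, fun _ => g4 hev _ _ _ h2⟩
  · obtain ⟨s'', g1, g2, g3, g4⟩ := exists_fix (ev := ev) hs (List.prefix_refl s)
      (fun i h1 h2 => absurd h2 (by omega))
    refine ⟨Nat.pair 0 (encode s''), ?_⟩
    unfold Good
    rw [Nat.unpair_pair]
    simp only [nd, Denumerable.ofNat_encode]
    exact ⟨g1, g2, g3, fun h => absurd h hX⟩

variable (ev U p) in
/-- the least good candidate -/
noncomputable def lc (t : ℕ) (s : List ℕ) : ℕ := sInf {c | Good ev U p t s c}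

variable (ev U p) in
/-- the sequence of conditions -/
noncomputable def sq : ℕ → List ℕ
  | 0 => []
  | t + 1 => nd (lc ev U p t (sq t)).unpair.2

theorem exact_sq (hev : EvOK ev) (t : ℕ) : Exact U (sq ev U p t) := by
  induction t with
  | zero => exact fun i hi => absurd hi (Nat.not_lt_zero _)
  | succ t ih =>
    have := Nat.sInf_mem (exists_good (p := p) hev ih t)
    exact this.2.2.1

theorem good_sq (hev : EvOK ev) (t : ℕ) :
    Good ev U p t (sq ev U p t) (lc ev U p t (sq ev U p t)) :=
  Nat.sInf_mem (exists_good hev (exact_sq hev t) t)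

theorem sq_succ_prefix (hev : EvOK ev) (t : ℕ) : sq ev U p t <+: sq ev U p (t + 1) :=
  (good_sq hev t).1

theorem sq_length (hev : EvOK ev) (t : ℕ) : t ≤ (sq ev U p t).length := by
  induction t with
  | zero => exact Nat.zero_le _
  | succ t ih => exact lt_of_le_of_lt ih (good_sq hev t).2.1

theorem sq_prefix (hev : EvOK ev) {t t' : ℕ} (h : t ≤ t') : sq ev U p t <+: sq ev U p t' := by
  induction h with
  | refl => exact List.prefix_refl _
  | step _ ih => exact ih.trans (sq_succ_prefix hev _)

variable (ev U p) in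
/-- the generic sequence -/
noncomputable def gs (i : ℕ) : ℕ := (sq ev U p (i + 1)).getD i 0

theorem sq_eq_pre (hev : EvOK ev) (t : ℕ) :
    sq ev U p t = pre (gs ev U p) (sq ev U p t).length := by
  apply List.ext_getElem
  · simp
  · intro i h1 h2
    rw [pre_getElem, gs, ← List.getD_eq_getElem _ 0 h1]
    have h3 := sq_length (U := U) (p := p) hev (i + 1)
    rcases le_total t (i + 1) with h | h
    · exact (prefix_iff_getD.1 (sq_prefix hev h)).2 i h1
    · exact ((prefix_iff_getD.1 (sq_prefix hev h)).2 i (by omega)).symm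

theorem gs_ne_zero (hev : EvOK ev) (i : ℕ) : gs ev U p i ≠ 0 ↔ i ∈ U :=
  exact_sq hev (i + 1) i (lt_of_lt_of_le (Nat.lt_succ_self i) (sq_length hev _))

theorem X_iff (hev : EvOK ev) (t : ℕ) : X ev U p t (sq ev U p t) ↔
    ∃ N, ev t (sq ev U p t) (pre p N) (pre (gs ev U p) N) = true := by
  constructor
  · intro h
    have h1 := (good_sq hev t).2.2.2 h
    have h2 : nd (lc ev U p t (sq ev U p t)).unpair.2 = sq ev U p (t + 1) := rfl
    rw [h2, sq_eq_pre hev (t + 1)] at h1
    exact ⟨_, hev.mono _ _ _ _ _ _ (pre_prefix (le_max_left _ _)) (pre_prefix (le_max_right _ _)) h1⟩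
  · rintro ⟨N, hN⟩
    refine ⟨N, pre (gs ev U p) (max N (sq ev U p t).length), ?_,
      hev.mono _ _ _ _ _ _ (List.prefix_refl _) (pre_prefix (le_max_left _ _)) hN, ?_⟩
    · conv_lhs => rw [sq_eq_pre hev t]
      exact pre_prefix (le_max_right _ _)
    · intro i _ h2 h3
      rw [pre_length] at h2
      rw [getD_pre1, if_pos h2] at h3
      exact (gs_ne_zero hev i).1 h3

theorem X_zero (hev : EvOK ev) (i : ℕ) : X ev U p 0 (List.replicate i 0) ↔ i ∈ U := by
  constructor
  · rintro ⟨n, s', h1, h2, h3⟩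
    rw [hev.zero] at h2
    rw [List.length_replicate] at h2 h3
    exact h3 i le_rfl h2.1 h2.2
  · intro h
    refine ⟨0, List.replicate i 0 ++ [1], ⟨[1], rfl⟩, ?_, ?_⟩
    · rw [hev.zero]
      simp [List.getD]
    · intro j h1 h2 _
      simp at h1 h2
      have : j = i := by omega
      rwa [this]

end Pool.Agent.Q205.PKL
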