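import Pool.Agent.Q205.PKL.Defs
import Pool.Agent.Q204.WD.Basic

/-!
Basic facts on perfect trees and perfect sets.
-/

set_option autoImplicit false

namespace Pool.Agent.Q205.PKL

open Q204.WD Filter Topology

variable {T P : Set (List ℕ)}

theorem kernel_tree (T : Set (List ℕ)) : IsTree (kernel T) := by
  rintro σ τ h ⟨P, h1, h2, h3, h4⟩
  exact ⟨P, h1, h2, h3, h1 _ _ h h4⟩

theorem kernel_perfect (T : Set (List ℕ)) : IsPerfect (kernel T) := by
  rintro σ ⟨P, h1, h2, h3, h4⟩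
  obtain ⟨τ, hτ, τ', hτ', h5⟩ := h2 σ h4
  exact ⟨τ, ⟨P, h1, h2, h3, hτ⟩, τ', ⟨P, h1, h2, h3, hτ'⟩, h5⟩

theorem kernel_sub (T : Set (List ℕ)) : kernel T ⊆ T := by
  rintro σ ⟨P, h1, h2, h3, h4⟩
  exact h3 h4

theorem exists_succ (hT : IsTree P) (hP : IsPerfect P) {σ : List ℕ} (hσ : σ ∈ P) :
    ∃ b, σ ++ [b] ∈ P := by
  obtain ⟨τ, hτ, τ', hτ', h1, h2, h3, h4⟩ := hP σ hσ
  obtain ⟨t, rfl⟩ := h1
  cases t with
  | nil =>
    rw [List.append_nil] at h3
    exact absurd h2 h3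
  | cons b t => exact ⟨b, hT _ _ ⟨t, by simp⟩ hτ⟩

theorem exists_path (hT : IsTree P) (hP : IsPerfect P) {σ : List ℕ} (hσ : σ ∈ P) :
    ∃ x : ℕ → ℕ, ∀ n, σ ++ pre x n ∈ P := by
  choose b hb using fun τ : {τ // τ ∈ P} => exists_succ hT hP τ.2
  let g : {τ // τ ∈ P} → {τ // τ ∈ P} := fun τ => ⟨τ.1 ++ [b τ], hb τ⟩
  refine ⟨fun n => b (g^[n] ⟨σ, hσ⟩), fun n => ?_⟩
  have h : ∀ n, σ ++ pre (fun n => b (g^[n] ⟨σ, hσ⟩)) n = (g^[n] ⟨σ, hσ⟩).1 := by
    intro n
    induction n with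
    | zero => simp [pre]
    | succ n ih =>
      rw [pre_succ, ← List.append_assoc, ih, Function.iterate_succ_apply']
  rw [h]
  exact (g^[n] ⟨σ, hσ⟩).2

theorem exists_body (hT : IsTree P) (hP : IsPerfect P) {σ : List ℕ} (hσ : σ ∈ P) :
    ∃ y ∈ body P, pre y σ.length = σ := by
  obtain ⟨x, hx⟩ := exists_path hT hP hσ
  let y : ℕ → ℕ := fun i => if i < σ.length then σ.getD i 0 else x (i - σ.length)
  have hy : ∀ n, pre y (σ.length + n) = σ ++ pre x n := by
    intro n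
    induction n with
    | zero =>
      rw [Nat.add_zero]
      simp only [pre, List.range_zero, List.map_nil, List.append_nil]
      apply List.ext_getElem
      · simp
      · intro i h1 h2
        simp only [List.getElem_map, List.getElem_range, y]
        rw [if_pos h2, List.getD_eq_getElem _ _ h2]
    | succ n ih =>
      rw [← Nat.add_assoc, pre_succ, ih, pre_succ, List.append_assoc]
      congr 2
      simp [y]
  refine ⟨y, fun n => hT _ _ ?_ (hx n), by simpa [pre] using hy 0⟩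
  rw [← hy]
  exact pre_prefix (by omega)

theorem pre_incomp {x y : ℕ → ℕ} {m : ℕ} (h : x m ≠ y m) : ¬ pre x (m + 1) <+: pre y (m + 1) := by
  intro hp
  have := hp.eq_of_length (by simp)
  exact h (pre_eq_iff.1 this m (Nat.lt_succ_self m))

theorem cylinder_nhds {x : ℕ → ℕ} {U : Set (ℕ → ℕ)} (hU : U ∈ 𝓝 x) :
    ∃ n, ∀ y, pre y n = pre x n → y ∈ U := by
  obtain ⟨V, ⟨z, n, rfl⟩, hx, hV⟩ :=
    (PiNat.isTopologicalBasis_cylinders (fun _ : ℕ => ℕ)).mem_nhds_iff.1 hU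
  refine ⟨n, fun y hy => hV ?_⟩
  rw [PiNat.mem_cylinder_iff] at hx ⊢
  intro i hi
  rw [pre_eq_iff.1 hy i hi]
  exact hx i hi

theorem nhds_cylinder (x : ℕ → ℕ) (n : ℕ) : {y | pre y n = pre x n} ∈ 𝓝 x := by
  refine mem_of_superset ((PiNat.isOpen_cylinder (fun _ : ℕ => ℕ) x n).mem_nhds
    (PiNat.self_mem_cylinder x n)) ?_
  intro y hy
  rw [PiNat.mem_cylinder_iff] at hy
  exact pre_congr hy

theorem body_closed (T : Set (List ℕ)) : IsClosed (body T) := by
  rw [← isOpen_compl_iff, isOpen_iff_mem_nhds]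
  intro x hx
  have h1 : ∃ n, pre x n ∉ T := by
    by_contra hc
    push Not at hc
    exact hx hc
  obtain ⟨n, hn⟩ := h1
  refine mem_of_superset (nhds_cylinder x n) ?_
  intro y hy hy'
  exact hn (by
    rw [← show pre y n = pre x n from hy]
    exact hy' n)

/-- The body of the largest perfect subtree is the perfect kernel of the body. -/
theorem body_kernel (T : Set (List ℕ)) : body (kernel T) = PKer (body T) := by
  apply Set.Subset.antisymm
  · intro x hx
    refine ⟨body (kernel T), ⟨⟨body_closed _, ?_⟩, fun y hy n => kernel_sub T (hy n)⟩, hx⟩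
    intro y hy
    rw [accPt_iff_nhds]
    intro U hU
    obtain ⟨n, hn⟩ := cylinder_nhds hU
    obtain ⟨τ, hτ, τ', hτ', h1, h2, h3, h4⟩ := kernel_perfect T _ (hy n)
    have key : ∃ ρ ∈ kernel T, pre y n <+: ρ ∧ ρ ≠ pre y ρ.length := by
      by_cases h5 : τ = pre y τ.length
      · refine ⟨τ', hτ', h2, fun h6 => ?_⟩
        rcases le_total τ.length τ'.length with h7 | h7
        · apply h3
          rw [h5, h6]
          exact pre_prefix h7
        · apply h4
          rw [h5, h6]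
          exact pre_prefix h7
      · exact ⟨τ, hτ, h1, h5⟩
    obtain ⟨ρ, hρ, h5, h6⟩ := key
    obtain ⟨z, hz, hz'⟩ := exists_body (kernel_tree T) (kernel_perfect T) hρ
    refine ⟨z, ⟨hn z ?_, hz⟩, ?_⟩
    · rw [← hz'] at h5
      have := prefix_eq_pre h5
      rw [pre_length] at this
      exact this.symm
    · rintro rfl
      exact h6 hz'.symm
  · rintro x ⟨Q, ⟨hQ, hQT⟩, hx⟩ n
    refine ⟨{σ | ∃ z ∈ Q, ∃ m, σ = pre z m}, ?_, ?_, ?_, ⟨x, hx, n, rfl⟩⟩
    · rintro σ τ h ⟨z, hz, m, rfl⟩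
      exact ⟨z, hz, _, prefix_eq_pre h⟩
    · rintro σ ⟨z, hz, m, rfl⟩
      obtain ⟨y, ⟨hy, hyQ⟩, hne⟩ := accPt_iff_nhds.1 (hQ.acc z hz) _ (nhds_cylinder z m)
      obtain ⟨k, hk⟩ := Function.ne_iff.1 hne
      have hmk : m ≤ k := by
        by_contra hlt
        exact hk (pre_eq_iff.1 hy k (by omega))
      refine ⟨pre z (k + 1), ⟨z, hz, _, rfl⟩, pre y (k + 1), ⟨y, hyQ, _, rfl⟩,
        pre_prefix (by omega), ?_, pre_incomp hk.symm, pre_incomp hk⟩
      rw [← show pre y m = pre z m from hy]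
      exact pre_prefix (by omega)
    · rintro σ ⟨z, hz, m, rfl⟩
      exact hQT hz m

end Pool.Agent.Q205.PKL
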